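import Pool.Agent.Q78.TF.Ode

set_option autoImplicit false

namespace Q78.TF

open Set Filter Topology

/-- backward continuous induction -/
theorem back_ind {a b : ℝ} {f : ℝ → ℝ} (hc : ContinuousOn f (Icc a b))
    (hb : 0 < f b) (step : ∀ c ∈ Ico a b, (∀ z ∈ Ioc c b, 0 < f z) → 0 < f c) :
    ∀ z ∈ Icc a b, 0 < f z := by
  by_contra hcon
  push Not at hcon
  obtain ⟨y, hy, hfy⟩ := hcon
  set N : Set ℝ := {z ∈ Icc a b | f z ≤ 0} with hN
  have hNc : IsCompact N := by
    have h1 : N = Icc a b ∩ f ⁻¹' (Iic 0) := by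
      ext z
      simp [hN]
    rw [h1]
    exact isCompact_Icc.of_isClosed_subset (hc.preimage_isClosed_of_isClosed isClosed_Icc isClosed_Iic)
      inter_subset_left
  obtain ⟨c, hcN, hcmax⟩ := hNc.exists_isGreatest ⟨y, hy, hfy⟩
  have hcb : c < b := by
    rcases lt_or_eq_of_le hcN.1.2 with h | h
    · exact h
    · exfalso
      rw [← h] at hb
      exact absurd hb (not_lt.2 hcN.2)
  have h2 : 0 < f c := by
    refine step c ⟨hcN.1.1, hcb⟩ fun z hz => ?_
    by_contra h3
    have h4 : z ∈ N := ⟨⟨hcN.1.1.trans hz.1.le, hz.2⟩, not_lt.1 h3⟩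
    exact absurd (hcmax h4) (not_le.2 hz.1)
  exact absurd h2 (not_lt.2 hcN.2)

/-- the energy functional -/
noncomputable def En (u χ q m f : ℝ → ℝ) (z : ℝ) : ℝ :=
  f z * (2 * χ z - 3 / 2 * z * q z) - m z * q z / 2 + 3 / 8 * z * m z ^ 2 / u z ^ 3

/-- its dissipation -/
noncomputable def Dis (u p χ q m : ℝ → ℝ) (z : ℝ) : ℝ :=
  u z * (2 * χ z - 3 / 2 * z * q z) ^ 2 + m z ^ 2 / (8 * u z ^ 3) -
    9 / 8 * z * m z ^ 2 * p z / u z ^ 4

theorem hasDerivAt_En {u p χ q m f : ℝ → ℝ} {z : ℝ} (hu : 0 < u z) (du : HasDerivAt u (p z) z)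
    (dχ : HasDerivAt χ (q z) z) (dq : HasDerivAt q (m z / (2 * u z ^ 3)) z)
    (dm : HasDerivAt m (f z) z)
    (df : HasDerivAt f (u z * (2 * χ z - 3 / 2 * z * q z)) z) :
    HasDerivAt (En u χ q m f) (Dis u p χ q m z) z := by
  have hid := hasDerivAt_id z
  have h1 := df.mul ((dχ.const_mul 2).sub ((hid.const_mul (3 / 2)).mul dq))
  have h2 := (dm.mul dq).div_const 2
  have h3 := (((hid.const_mul (3 / 8)).mul (dm.pow 2))).div (du.pow 3) (pow_ne_zero 3 hu.ne')
  have h4 := (h1.sub h2).add h3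
  have hfun : (En u χ q m f) = fun z => f z * (2 * χ z - 3 / 2 * z * q z) - m z * q z / 2 +
      3 / 8 * z * m z ^ 2 / u z ^ 3 := by
    funext w
    rfl
  rw [hfun]
  refine h4.congr_deriv ?_
  simp only [Dis, Pi.sub_apply, Pi.mul_apply, Pi.pow_apply, id]
  have hne : u z ≠ 0 := hu.ne'
  field_simp
  ring

theorem Dis_nonneg {u p χ q m : ℝ → ℝ} {z : ℝ} (hz : 0 ≤ z) (hu : 0 < u z) (hp : p z ≤ 0) :
    0 ≤ Dis u p χ q m z := by
  unfold Dis
  have h1 : 0 ≤ u z * (2 * χ z - 3 / 2 * z * q z) ^ 2 := by positivity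
  have h2 : 0 ≤ m z ^ 2 / (8 * u z ^ 3) := by positivity
  have h3 : 0 ≤ 9 / 8 * z * m z ^ 2 * (- p z) / u z ^ 4 := by
    have : 0 ≤ - p z := by linarith
    positivity
  have h4 : 9 / 8 * z * m z ^ 2 * (- p z) / u z ^ 4 = - (9 / 8 * z * m z ^ 2 * p z / u z ^ 4) := by
    ring
  linarith

/-- the system -/
structure Sys (a b : ℝ) (u p M F : ℝ → ℝ) : Prop where
  hu : ∀ z ∈ Ioo a b, 0 < u z
  du : ∀ z ∈ Ioo a b, HasDerivAt u (p z) z
  dp : ∀ z ∈ Ioo a b, HasDerivAt p (M z / (2 * u z ^ 3)) z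
  dM : ∀ z ∈ Ioo a b, HasDerivAt M (F z) z
  dF : ∀ z ∈ Ioo a b, HasDerivAt F (u z * (2 * (u z - 1 / 2) - 3 / 2 * z * p z)) z

theorem mono_of {f f' : ℝ → ℝ} {s : Set ℝ} (hs : Convex ℝ s) (hd : ∀ z ∈ s, HasDerivAt f (f' z) z)
    (h0 : ∀ z ∈ interior s, 0 ≤ f' z) : MonotoneOn f s := by
  refine monotoneOn_of_deriv_nonneg hs (fun z hz => (hd z hz).continuousAt.continuousWithinAt)
    (fun z hz => (hd z (interior_subset hz)).differentiableAt.differentiableWithinAt)
    fun z hz => ?_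
  rw [(hd z (interior_subset hz)).deriv]
  exact h0 z hz

theorem anti_of {f f' : ℝ → ℝ} {s : Set ℝ} (hs : Convex ℝ s) (hd : ∀ z ∈ s, HasDerivAt f (f' z) z)
    (h0 : ∀ z ∈ interior s, f' z ≤ 0) : AntitoneOn f s := by
  refine antitoneOn_of_deriv_nonpos hs (fun z hz => (hd z hz).continuousAt.continuousWithinAt)
    (fun z hz => (hd z (interior_subset hz)).differentiableAt.differentiableWithinAt)
    fun z hz => ?_
  rw [(hd z (interior_subset hz)).deriv]
  exact h0 z hz

theorem smono_of {f f' : ℝ → ℝ} {s : Set ℝ} (hs : Convex ℝ s) (hd : ∀ z ∈ s, HasDerivAt f (f' z) z)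
    (h0 : ∀ z ∈ interior s, 0 < f' z) : StrictMonoOn f s := by
  refine strictMonoOn_of_deriv_pos hs (fun z hz => (hd z hz).continuousAt.continuousWithinAt)
    fun z hz => ?_
  rw [(hd z (interior_subset hz)).deriv]
  exact h0 z hz

theorem santi_of {f f' : ℝ → ℝ} {s : Set ℝ} (hs : Convex ℝ s) (hd : ∀ z ∈ s, HasDerivAt f (f' z) z)
    (h0 : ∀ z ∈ interior s, f' z < 0) : StrictAntiOn f s := by
  refine strictAntiOn_of_deriv_neg hs (fun z hz => (hd z hz).continuousAt.continuousWithinAt)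
    fun z hz => ?_
  rw [(hd z (interior_subset hz)).deriv]
  exact h0 z hz

/-- The comparison argument: at the last critical point the profile is below the flat state. -/
theorem below_half {a b z2 z1 : ℝ} {u p M F : ℝ → ℝ} (ha : 0 ≤ a) (S : Sys a b u p M F)
    (h2 : z2 ∈ Ioo a b) (h1 : z1 ∈ Ioo a b) (h21 : z2 < z1) (hp2 : p z2 = 0)
    (hneg : ∀ z ∈ Ioc z2 z1, p z < 0) (hF1 : 0 ≤ F z1)
    (hE1 : En u (fun z => u z - 1 / 2) p M F z1 < 0) : u z2 < 1 / 2 := by
  have hsub : Icc z2 z1 ⊆ Ioo a b := fun z hz => ⟨h2.1.trans_le hz.1, hz.2.trans_lt h1.2⟩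
  obtain ⟨χ, q, m, f, c1, c2, c3, c4, hode⟩ := exists_chi h21.le u
    (fun z hz => (S.du z (hsub hz)).continuousAt.continuousWithinAt) (fun z hz => S.hu z (hsub hz))
  have hz2 : 0 ≤ z2 := ha.trans h2.1.le
  -- signs, from positivity of psi on a final interval
  have key : ∀ c ∈ Icc z2 z1, (∀ z ∈ Ioc c z1, 0 < 2 * χ z - 3 / 2 * z * q z) →
      (∀ z ∈ Icc c z1, f z ≤ 0) ∧ (∀ z ∈ Icc c z1, 0 ≤ m z) ∧ (∀ z ∈ Icc c z1, q z ≤ 0) ∧
      (∀ z ∈ Icc c z1, 1 ≤ χ z) := by
    intro c hc hpsi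
    have hcs : Icc c z1 ⊆ Icc z2 z1 := Icc_subset_Icc_left hc.1
    have hint : interior (Icc c z1) ⊆ Ioc c z1 := by
      rw [interior_Icc]
      exact Ioo_subset_Ioc_self
    have hz1 : z1 ∈ Icc c z1 := ⟨hc.2, le_rfl⟩
    have A1 : ∀ z ∈ Icc c z1, f z ≤ 0 := by
      have := mono_of (convex_Icc c z1) (fun z hz => (hode z (hcs hz)).2.2.2) (fun z hz => by
        have := S.hu z (hsub (hcs (interior_subset hz)))
        have := hpsi z (hint hz)
        positivity)
      intro z hz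
      have := this hz hz1 hz.2
      linarith
    have A2 : ∀ z ∈ Icc c z1, 0 ≤ m z := by
      have := anti_of (convex_Icc c z1) (fun z hz => (hode z (hcs hz)).2.2.1)
        (fun z hz => A1 z (interior_subset hz))
      intro z hz
      have := this hz hz1 hz.2
      linarith
    have A3 : ∀ z ∈ Icc c z1, q z ≤ 0 := by
      have := mono_of (convex_Icc c z1) (fun z hz => (hode z (hcs hz)).2.1) (fun z hz => by
        have := S.hu z (hsub (hcs (interior_subset hz)))
        have := A2 z (interior_subset hz)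
        positivity)
      intro z hz
      have := this hz hz1 hz.2
      linarith
    have A4 : ∀ z ∈ Icc c z1, 1 ≤ χ z := by
      have := anti_of (convex_Icc c z1) (fun z hz => (hode z (hcs hz)).1)
        (fun z hz => A3 z (interior_subset hz))
      intro z hz
      have := this hz hz1 hz.2
      linarith
    exact ⟨A1, A2, A3, A4⟩
  have hpsi : ∀ z ∈ Icc z2 z1, 0 < 2 * χ z - 3 / 2 * z * q z := by
    refine back_ind ?_ ?_ ?_
    · intro z hz
      obtain ⟨d1, d2, -, -⟩ := hode z hz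
      exact ((continuousAt_const.mul d1.continuousAt).sub
        ((continuousAt_const.mul continuousAt_id).mul d2.continuousAt)).continuousWithinAt
    · rw [c1, c2]
      norm_num
    · intro c hc h
      obtain ⟨-, -, A3, A4⟩ := key c ⟨hc.1, hc.2.le⟩ h
      have e3 := A3 c ⟨le_rfl, hc.2.le⟩
      have e4 := A4 c ⟨le_rfl, hc.2.le⟩
      have hc0 : 0 ≤ c := hz2.trans hc.1
      have : 0 ≤ c * (- q c) := mul_nonneg hc0 (by linarith)
      nlinarith
  obtain ⟨-, -, -, A4⟩ := key z2 ⟨le_rfl, h21.le⟩ (fun z hz => hpsi z ⟨hz.1.le, hz.2⟩)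
  -- strict sign of q
  have hfneg : ∀ z ∈ Ico z2 z1, f z < 0 := by
    have := smono_of (convex_Icc z2 z1) (fun z hz => (hode z hz).2.2.2) (fun z hz => by
        have := S.hu z (hsub (interior_subset hz))
        have := hpsi z (interior_subset hz)
        positivity)
    intro z hz
    have := this ⟨hz.1, hz.2.le⟩ ⟨h21.le, le_rfl⟩ hz.2
    linarith
  have hmpos : ∀ z ∈ Ico z2 z1, 0 < m z := by
    have := santi_of (convex_Icc z2 z1) (fun z hz => (hode z hz).2.2.1) (fun z hz => by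
        rw [interior_Icc] at hz
        exact hfneg z ⟨hz.1.le, hz.2⟩)
    intro z hz
    have := this ⟨hz.1, hz.2.le⟩ ⟨h21.le, le_rfl⟩ hz.2
    linarith
  have hqneg : ∀ z ∈ Ico z2 z1, q z < 0 := by
    have := smono_of (convex_Icc z2 z1) (fun z hz => (hode z hz).2.1) (fun z hz => by
        have := S.hu z (hsub (interior_subset hz))
        rw [interior_Icc] at hz
        have := hmpos z ⟨hz.1.le, hz.2⟩
        positivity)
    intro z hz
    have := this ⟨hz.1, hz.2.le⟩ ⟨h21.le, le_rfl⟩ hz.2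
    linarith
  by_contra hcon
  push Not at hcon
  -- the Wronskian
  set D : ℝ → ℝ := fun z => (u z - 1 / 2) * q z - p z * χ z with hD
  have hDc : ContinuousOn D (Icc z2 z1) := by
    intro z hz
    obtain ⟨d1, d2, -, -⟩ := hode z hz
    exact ((((S.du z (hsub hz)).continuousAt.sub continuousAt_const).mul d2.continuousAt).sub
      ((S.dp z (hsub hz)).continuousAt.mul d1.continuousAt)).continuousWithinAt
  have hD2 : D z2 ≤ 0 := by
    simp only [hD, hp2]
    have := hqneg z2 ⟨le_rfl, h21⟩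
    nlinarith
  have hD1 : 0 < D z1 := by
    simp only [hD, c1, c2]
    have := hneg z1 ⟨h21, le_rfl⟩
    linarith
  obtain ⟨y, hy, hDy⟩ : (0:ℝ) ∈ D '' Icc z2 z1 :=
    intermediate_value_Icc h21.le hDc ⟨hD2, hD1.le⟩
  have hyne : y ≠ z1 := by
    rintro rfl
    rw [hDy] at hD1
    exact lt_irrefl _ hD1
  have hy1 : y < z1 := lt_of_le_of_ne hy.2 hyne
  have hχy := A4 y hy
  have hqy := hqneg y ⟨hy.1, hy1⟩
  have hpy : p y ≤ 0 := by
    rcases eq_or_lt_of_le hy.1 with h | h
    · rw [← h, hp2]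
    · exact (hneg y ⟨h, hy.2⟩).le
  set k : ℝ := (u y - 1 / 2) / χ y with hk
  have hkx : k * χ y = u y - 1 / 2 := by
    rw [hk]
    field_simp
  have hkq : p y = k * q y := by
    simp only [hD] at hDy
    have h5 : p y * χ y = k * q y * χ y := by
      have : k * q y * χ y = (k * χ y) * q y := by ring
      rw [this, hkx]
      linarith
    exact mul_right_cancel₀ (by linarith : χ y ≠ 0) h5
  have hk0 : 0 ≤ k := by
    by_contra hk0
    push Not at hk0
    have : 0 < k * q y := mul_pos_of_neg_of_neg hk0 hqy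
    linarith
  -- the combination with a double zero
  have hEη : ∀ z ∈ Icc y z1, HasDerivAt
      (En u (fun z => (u z - 1 / 2) - k * χ z) (fun z => p z - k * q z) (fun z => M z - k * m z)
        (fun z => F z - k * f z))
      (Dis u p (fun z => (u z - 1 / 2) - k * χ z) (fun z => p z - k * q z)
        (fun z => M z - k * m z) z) z := by
    intro z hz
    have hz' : z ∈ Icc z2 z1 := ⟨hy.1.trans hz.1, hz.2⟩
    obtain ⟨d1, d2, d3, d4⟩ := hode z hz'
    have hzs := hsub hz'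
    refine hasDerivAt_En (S.hu z hzs) (S.du z hzs) ?_ ?_ ?_ ?_
    · exact ((S.du z hzs).sub_const _).sub (d1.const_mul k)
    · have := (S.dp z hzs).sub (d2.const_mul k)
      refine this.congr_deriv ?_
      ring
    · exact (S.dM z hzs).sub (d3.const_mul k)
    · have := (S.dF z hzs).sub (d4.const_mul k)
      refine this.congr_deriv ?_
      ring
  have hmono := mono_of (convex_Icc y z1) hEη (fun z hz => by
    rw [interior_Icc] at hz
    have hz' : z ∈ Ioo a b := hsub ⟨hy.1.trans hz.1.le, hz.2.le⟩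
    exact Dis_nonneg (ha.trans hz'.1.le) (S.hu z hz')
      (hneg z ⟨hy.1.trans_lt hz.1, hz.2.le⟩).le)
  have hle := hmono ⟨le_rfl, hy1.le⟩ ⟨hy1.le, le_rfl⟩ hy1.le
  have hy0 : 0 ≤ y := hz2.trans hy.1
  have huy := S.hu y (hsub hy)
  have hl : 0 ≤ En u (fun z => (u z - 1 / 2) - k * χ z) (fun z => p z - k * q z)
      (fun z => M z - k * m z) (fun z => F z - k * f z) y := by
    unfold En
    simp only [hkx, ← hkq, sub_self, mul_zero, zero_div, zero_add]
    have : 0 ≤ 3 / 8 * y * (M y - k * m y) ^ 2 / u y ^ 3 := by positivity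
    linarith
  have hr : En u (fun z => (u z - 1 / 2) - k * χ z) (fun z => p z - k * q z)
      (fun z => M z - k * m z) (fun z => F z - k * f z) z1 =
      En u (fun z => u z - 1 / 2) p M F z1 - 2 * k * F z1 := by
    unfold En
    simp only [c1, c2, c3, c4]
    ring
  have : 0 ≤ 2 * k * F z1 := by positivity
  linarith

end Q78.TF
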