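import Pool.Agent.Q78.TF.Core

set_option autoImplicit false

namespace Q78.TF

open Set Filter Topology

theorem left_lim_le {f : ℝ → ℝ} {a t l v : ℝ} (hat : a < t) (hl : Tendsto f (𝓝[>] a) (𝓝 l))
    (h : ∀ z ∈ Ioo a t, f z ≤ v) : l ≤ v :=
  le_of_tendsto hl (eventually_of_mem (Ioo_mem_nhdsGT hat) h)

theorem le_left_lim {f : ℝ → ℝ} {a t l v : ℝ} (hat : a < t) (hl : Tendsto f (𝓝[>] a) (𝓝 l))
    (h : ∀ z ∈ Ioo a t, v ≤ f z) : v ≤ l :=
  ge_of_tendsto hl (eventually_of_mem (Ioo_mem_nhdsGT hat) h)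

theorem right_lim_le {f : ℝ → ℝ} {b t l v : ℝ} (htb : t < b) (hl : Tendsto f (𝓝[<] b) (𝓝 l))
    (h : ∀ z ∈ Ioo t b, f z ≤ v) : l ≤ v :=
  le_of_tendsto hl (eventually_of_mem (Ioo_mem_nhdsLT htb) h)

theorem le_right_lim {f : ℝ → ℝ} {b t l v : ℝ} (htb : t < b) (hl : Tendsto f (𝓝[<] b) (𝓝 l))
    (h : ∀ z ∈ Ioo t b, v ≤ f z) : v ≤ l :=
  ge_of_tendsto hl (eventually_of_mem (Ioo_mem_nhdsLT htb) h)

section
variable {a b : ℝ} {u p M F : ℝ → ℝ}

theorem Sys.dE (S : Sys a b u p M F) {z : ℝ} (hz : z ∈ Ioo a b) :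
    HasDerivAt (En u (fun z => u z - 1 / 2) p M F) (Dis u p (fun z => u z - 1 / 2) p M z) z :=
  hasDerivAt_En (S.hu z hz) (S.du z hz) ((S.du z hz).sub_const _) (S.dp z hz) (S.dM z hz)
    (S.dF z hz)

/-- The energy is negative on a final monotone interval. -/
theorem En_neg (ha : 0 ≤ a) (S : Sys a b u p M F) {c : ℝ} (hc : c ∈ Ico a b)
    (hneg : ∀ z ∈ Ioo c b, p z < 0)
    (hE : Tendsto (En u (fun z => u z - 1 / 2) p M F) (𝓝[<] b) (𝓝 0)) :
    (∀ z ∈ Ioo c b, En u (fun z => u z - 1 / 2) p M F z < 0) ∧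
    MonotoneOn (En u (fun z => u z - 1 / 2) p M F) (Ioo c b) := by
  set E := En u (fun z => u z - 1 / 2) p M F with hEdef
  have hsub : Ioo c b ⊆ Ioo a b := Ioo_subset_Ioo_left hc.1
  have hmono : MonotoneOn E (Ioo c b) := by
    refine mono_of (convex_Ioo c b) (fun z hz => S.dE (hsub hz)) fun z hz => ?_
    rw [interior_Ioo] at hz
    exact Dis_nonneg (ha.trans (hsub hz).1.le) (S.hu z (hsub hz)) (hneg z hz).le
  have hle : ∀ z ∈ Ioo c b, E z ≤ 0 := fun z hz =>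
    le_right_lim hz.2 hE fun t ht => hmono hz ⟨hz.1.trans ht.1, ht.2⟩ ht.1.le
  refine ⟨fun z hz => ?_, hmono⟩
  by_contra hcon
  push Not at hcon
  have h0 : ∀ t ∈ Ioo z b, E t = 0 := fun t ht =>
    le_antisymm (hle t ⟨hz.1.trans ht.1, ht.2⟩)
      (hcon.trans (hmono hz ⟨hz.1.trans ht.1, ht.2⟩ ht.1.le))
  have h1 : ∀ t ∈ Ioo z b, 2 * (u t - 1 / 2) - 3 / 2 * t * p t = 0 ∧ M t = 0 := by
    intro t ht
    have hts : t ∈ Ioo c b := ⟨hz.1.trans ht.1, ht.2⟩
    have h2 : HasDerivAt E 0 t := by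
      refine (hasDerivAt_const t (0:ℝ)).congr_of_eventuallyEq ?_
      exact eventually_of_mem (Ioo_mem_nhds ht.1 ht.2) h0
    have h3 := h2.unique (S.dE (hsub hts))
    unfold Dis at h3
    have hut := S.hu t (hsub hts)
    have ht0 : 0 ≤ t := ha.trans (hsub hts).1.le
    have e1 : 0 ≤ u t * (2 * (u t - 1 / 2) - 3 / 2 * t * p t) ^ 2 := by positivity
    have e2 : 0 ≤ M t ^ 2 / (8 * u t ^ 3) := by positivity
    have e3 : 0 ≤ 9 / 8 * t * M t ^ 2 * (- p t) / u t ^ 4 := by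
      have : 0 ≤ - p t := by linarith [hneg t hts]
      positivity
    have e4 : 9 / 8 * t * M t ^ 2 * (- p t) / u t ^ 4 = - (9 / 8 * t * M t ^ 2 * p t / u t ^ 4) := by
      ring
    have e5 : u t * (2 * (u t - 1 / 2) - 3 / 2 * t * p t) ^ 2 = 0 := by linarith
    have e6 : M t ^ 2 / (8 * u t ^ 3) = 0 := by linarith
    constructor
    · rcases mul_eq_zero.1 e5 with h | h
      · exact absurd h hut.ne'
      · exact pow_eq_zero_iff (two_ne_zero) |>.1 h
    · rcases div_eq_zero_iff.1 e6 with h | h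
      · exact pow_eq_zero_iff (two_ne_zero) |>.1 h
      · exfalso
        have : 0 < 8 * u t ^ 3 := by positivity
        linarith
  set t := (z + b) / 2 with ht
  have htm : t ∈ Ioo z b := ⟨by rw [ht]; linarith [hz.2], by rw [ht]; linarith [hz.2]⟩
  have hts : t ∈ Ioo c b := ⟨hz.1.trans htm.1, htm.2⟩
  have h2 : HasDerivAt (fun t => 2 * (u t - 1 / 2) - 3 / 2 * t * p t) 0 t := by
    refine (hasDerivAt_const t (0:ℝ)).congr_of_eventuallyEq ?_
    exact eventually_of_mem (Ioo_mem_nhds htm.1 htm.2) fun y hy => (h1 y hy).1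
  have h3 : HasDerivAt (fun t => 2 * (u t - 1 / 2) - 3 / 2 * t * p t)
      (2 * p t - (3 / 2 * 1 * p t + 3 / 2 * t * (M t / (2 * u t ^ 3)))) t :=
    (((S.du t (hsub hts)).sub_const _).const_mul 2).sub
      (((hasDerivAt_id t).const_mul (3 / 2)).mul (S.dp t (hsub hts)))
  have h4 := h2.unique h3
  rw [(h1 t htm).2] at h4
  have := hneg t hts
  simp only [zero_div, mul_zero, add_zero] at h4
  linarith

/-- The heart of the argument: there is no positive solution with these boundary conditions. -/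
theorem core (ha : 0 ≤ a) (hab : a < b) (S : Sys a b u p M F)
    (hM : Tendsto M (𝓝[<] b) (𝓝 0))
    (hE : Tendsto (En u (fun z => u z - 1 / 2) p M F) (𝓝[<] b) (𝓝 0))
    (hneg : ∃ c ∈ Ioo a b, ∀ z ∈ Ioo c b, p z < 0)
    (hleft : (Tendsto p (𝓝[>] a) (𝓝 0) ∧
        Tendsto (En u (fun z => u z - 1 / 2) p M F) (𝓝[>] a) (𝓝 0)) ∨
      (Tendsto u (𝓝[>] a) (𝓝 0) ∧ Tendsto M (𝓝[>] a) (𝓝 0))) : False := by
  obtain ⟨c, hc, hcneg⟩ := hneg
  -- p is not negative on the whole interval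
  have hex : ∃ y ∈ Ioo a b, 0 ≤ p y := by
    by_contra hcon
    push Not at hcon
    rcases hleft with ⟨-, hEa⟩ | ⟨hua, -⟩
    · obtain ⟨hE1, hE2⟩ := En_neg ha S ⟨le_rfl, hab⟩ hcon hE
      have h1 : (0:ℝ) ≤ En u (fun z => u z - 1 / 2) p M F c :=
        left_lim_le hc.1 hEa fun z hz => hE2 ⟨hz.1, hz.2.trans hc.2⟩ hc hz.2.le
      linarith [hE1 c hc]
    · have h1 : AntitoneOn u (Ioo a b) := anti_of (convex_Ioo a b) (fun z hz => S.du z hz)
        fun z hz => by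
          rw [interior_Ioo] at hz
          exact (hcon z hz).le
      have h2 : u c ≤ 0 := le_left_lim hc.1 hua fun z hz => h1 ⟨hz.1, hz.2.trans hc.2⟩ hc hz.2.le
      linarith [S.hu c hc]
  obtain ⟨y, hy, hpy⟩ := hex
  -- last critical point
  have hyc : y ≤ c := by
    by_contra h
    push Not at h
    linarith [hcneg y ⟨h, hy.2⟩]
  set N : Set ℝ := {z ∈ Icc y c | 0 ≤ p z} with hN
  have hNc : IsCompact N := by
    have h1 : N = Icc y c ∩ p ⁻¹' (Ici 0) := by
      ext z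
      simp [hN]
    rw [h1]
    refine isCompact_Icc.of_isClosed_subset (ContinuousOn.preimage_isClosed_of_isClosed
      (fun z hz => ?_) isClosed_Icc isClosed_Ici) inter_subset_left
    exact (S.dp z ⟨hy.1.trans_le hz.1, hz.2.trans_lt hc.2⟩).continuousAt.continuousWithinAt
  obtain ⟨z2, hz2N, hz2max⟩ := hNc.exists_isGreatest ⟨y, ⟨le_rfl, hyc⟩, hpy⟩
  have hz2 : z2 ∈ Ioo a b := ⟨hy.1.trans_le hz2N.1.1, hz2N.1.2.trans_lt hc.2⟩
  have hz2neg : ∀ z ∈ Ioo z2 b, p z < 0 := by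
    intro z hz
    by_contra h
    push Not at h
    rcases le_or_gt z c with h1 | h1
    · have : z ∈ N := ⟨⟨hz2N.1.1.trans hz.1.le, h1⟩, h⟩
      exact absurd (hz2max this) (not_le.2 hz.1)
    · linarith [hcneg z ⟨h1, hz.2⟩]
  have hpz2 : p z2 = 0 := by
    refine le_antisymm ?_ hz2N.2
    have h1 : Tendsto p (𝓝[>] z2) (𝓝 (p z2)) :=
      (S.dp z2 hz2).continuousAt.tendsto.mono_left nhdsWithin_le_nhds
    exact left_lim_le hz2.2 h1 fun z hz => (hz2neg z hz).le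
  obtain ⟨hEneg, hEmono⟩ := En_neg ha S ⟨hz2.1.le, hz2.2⟩ hz2neg hE
  -- energy at z2
  have hE2 : En u (fun z => u z - 1 / 2) p M F z2 < 0 := by
    set t := (z2 + b) / 2 with ht
    have htm : t ∈ Ioo z2 b := ⟨by rw [ht]; linarith [hz2.2], by rw [ht]; linarith [hz2.2]⟩
    have h1 : Tendsto (En u (fun z => u z - 1 / 2) p M F) (𝓝[>] z2)
        (𝓝 (En u (fun z => u z - 1 / 2) p M F z2)) :=
      (S.dE hz2).continuousAt.tendsto.mono_left nhdsWithin_le_nhds
    have h2 : En u (fun z => u z - 1 / 2) p M F z2 ≤ En u (fun z => u z - 1 / 2) p M F t :=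
      left_lim_le htm.1 h1 fun z hz => hEmono ⟨hz.1, hz.2.trans htm.2⟩ htm hz.2.le
    linarith [hEneg t htm]
  -- a point with nonnegative flux
  have hex1 : ∃ z1 ∈ Ioo z2 b, 0 ≤ F z1 := by
    by_contra hcon
    push Not at hcon
    have hMa : StrictAntiOn M (Ico z2 b) := by
      refine santi_of (convex_Ico z2 b) (fun z hz => S.dM z ⟨hz2.1.trans_le hz.1, hz.2⟩) ?_
      intro z hz
      rw [interior_Ico] at hz
      exact hcon z hz
    have hMpos : ∀ z ∈ Ico z2 b, 0 < M z := by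
      intro z hz
      set t := (z + b) / 2 with ht
      have htm : t ∈ Ioo z b := ⟨by rw [ht]; linarith [hz.2], by rw [ht]; linarith [hz.2]⟩
      have htI : t ∈ Ico z2 b := ⟨hz.1.trans htm.1.le, htm.2⟩
      have h1 : M t < M z := hMa hz htI htm.1
      have h2 : 0 ≤ M t := right_lim_le htm.2 hM fun w hw =>
        (hMa htI ⟨htI.1.trans hw.1.le, hw.2⟩ hw.1).le
      linarith
    have hps : StrictMonoOn p (Ico z2 b) := by
      refine smono_of (convex_Ico z2 b) (fun z hz => S.dp z ⟨hz2.1.trans_le hz.1, hz.2⟩) ?_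
      intro z hz
      have := hMpos z (interior_subset hz)
      have := S.hu z ⟨hz2.1.trans_le (interior_subset hz).1, (interior_subset hz).2⟩
      positivity
    set t := (z2 + b) / 2 with ht
    have htm : t ∈ Ioo z2 b := ⟨by rw [ht]; linarith [hz2.2], by rw [ht]; linarith [hz2.2]⟩
    have := hps ⟨le_rfl, hz2.2⟩ ⟨htm.1.le, htm.2⟩ htm.1
    rw [hpz2] at this
    linarith [hz2neg t htm]
  obtain ⟨z1, hz1, hF1⟩ := hex1
  have huhalf : u z2 < 1 / 2 :=
    below_half ha S hz2 ⟨hz2.1.trans hz1.1, hz1.2⟩ hz1.1 hpz2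
      (fun z hz => hz2neg z ⟨hz.1, hz.2.trans_lt hz1.2⟩) hF1 (hEneg z1 hz1)
  have hz20 : 0 ≤ z2 := ha.trans hz2.1.le
  have huz2 := S.hu z2 hz2
  have hF2 : 0 < F z2 := by
    unfold En at hE2
    simp only [hpz2, mul_zero, sub_zero, zero_div] at hE2
    have h1 : 0 ≤ 3 / 8 * z2 * M z2 ^ 2 / u z2 ^ 3 := by positivity
    have h2 : F z2 * (2 * (u z2 - 1 / 2)) < 0 := by linarith
    by_contra h3
    push Not at h3
    have : 0 ≤ F z2 * (2 * (u z2 - 1 / 2)) := mul_nonneg_of_nonpos_of_nonpos h3 (by linarith)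
    linarith
  have hM2 : M z2 ≤ 0 := by
    by_contra hcon
    push Not at hcon
    have h1 : ∀ᶠ z in 𝓝 z2, 0 < M z := (S.dM z2 hz2).continuousAt.eventually (lt_mem_nhds hcon)
    have h2 : ∀ᶠ z in 𝓝 z2, z < b := gt_mem_nhds hz2.2
    obtain ⟨δ, hδ, hball⟩ := Metric.eventually_nhds_iff.1 (h1.and h2)
    set t := z2 + δ / 2 with ht
    have hI : ∀ z ∈ Icc z2 t, 0 < M z ∧ z < b := by
      intro z hz
      refine hball ?_
      rw [Real.dist_eq, abs_of_nonneg (by linarith [hz.1])]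
      linarith [hz.2]
    have hzt : z2 < t := by rw [ht]; linarith
    have hps : StrictMonoOn p (Icc z2 t) := by
      refine smono_of (convex_Icc z2 t) (fun z hz => S.dp z ⟨hz2.1.trans_le hz.1, (hI z hz).2⟩) ?_
      intro z hz
      have h3 := interior_subset hz
      have := (hI z h3).1
      have := S.hu z ⟨hz2.1.trans_le h3.1, (hI z h3).2⟩
      positivity
    have h4 := hps ⟨le_rfl, hzt.le⟩ ⟨hzt.le, le_rfl⟩ hzt
    rw [hpz2] at h4
    linarith [hz2neg t ⟨hzt, (hI t ⟨hzt.le, le_rfl⟩).2⟩]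
  -- propagate to the left
  have key : ∀ c ∈ Ioc a z2, (∀ z ∈ Ioc c z2, 0 < F z) →
      (∀ z ∈ Ico c z2, M z < M z2) ∧ (∀ z ∈ Ico c z2, 0 < p z) ∧ F z2 ≤ F c := by
    intro c hc' hpos
    have hs : Icc c z2 ⊆ Ioo a b := fun z hz => ⟨hc'.1.trans_le hz.1, hz.2.trans_lt hz2.2⟩
    have hr : z2 ∈ Icc c z2 := ⟨hc'.2, le_rfl⟩
    have A1 : ∀ z ∈ Ico c z2, M z < M z2 := by
      have := smono_of (convex_Icc c z2) (fun z hz => S.dM z (hs hz)) (fun z hz => by
        rw [interior_Icc] at hz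
        exact hpos z ⟨hz.1, hz.2.le⟩)
      intro z hz
      exact this ⟨hz.1, hz.2.le⟩ hr hz.2
    have A2 : ∀ z ∈ Ico c z2, 0 < p z := by
      have := santi_of (convex_Icc c z2) (fun z hz => S.dp z (hs hz)) (fun z hz => by
        have h3 := S.hu z (hs (interior_subset hz))
        rw [interior_Icc] at hz
        have h4 := A1 z ⟨hz.1.le, hz.2⟩
        exact div_neg_of_neg_of_pos (by linarith) (by positivity))
      intro z hz
      have := this ⟨hz.1, hz.2.le⟩ hr hz.2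
      linarith
    have A3 : ∀ z ∈ Icc c z2, u z ≤ u z2 := by
      have := mono_of (convex_Icc c z2) (fun z hz => S.du z (hs hz)) (fun z hz => by
        rw [interior_Icc] at hz
        exact (A2 z ⟨hz.1.le, hz.2⟩).le)
      intro z hz
      exact this hz hr hz.2
    refine ⟨A1, A2, ?_⟩
    have := anti_of (convex_Icc c z2) (fun z hz => S.dF z (hs hz)) (fun z hz => by
        have h3 := S.hu z (hs (interior_subset hz))
        have h5 := A3 z (interior_subset hz)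
        have h6 := (hs (interior_subset hz)).1
        rw [interior_Icc] at hz
        have h4 := A2 z ⟨hz.1.le, hz.2⟩
        have h7 : 0 ≤ z * p z := mul_nonneg (ha.trans h6.le) h4.le
        have h8 : 2 * (u z - 1 / 2) - 3 / 2 * z * p z ≤ 0 := by nlinarith
        exact mul_nonpos_of_nonneg_of_nonpos h3.le h8)
    exact this ⟨le_rfl, hc'.2⟩ hr hc'.2
  have hFpos : ∀ z ∈ Ioc a z2, 0 < F z := by
    intro z hz
    have hs : Icc z z2 ⊆ Ioo a b := fun w hw => ⟨hz.1.trans_le hw.1, hw.2.trans_lt hz2.2⟩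
    refine back_ind (a := z) (b := z2) (fun w hw => (S.dF w (hs hw)).continuousAt.continuousWithinAt)
      hF2 ?_ z ⟨le_rfl, hz.2⟩
    intro c hc' h
    have := (key c ⟨hz.1.trans_le hc'.1, hc'.2.le⟩ h).2.2
    linarith
  set t := (a + z2) / 2 with ht
  have hta : a < t := by rw [ht]; linarith [hz2.1]
  have htz : t < z2 := by rw [ht]; linarith [hz2.1]
  rcases hleft with ⟨hpa, -⟩ | ⟨-, hMa⟩
  · -- p is decreasing on (a, z2]
    have hpt : 0 < p t := (key t ⟨hta, htz.le⟩ (fun z hz => hFpos z ⟨hta.trans hz.1, hz.2⟩)).2.1 t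
      ⟨le_rfl, htz⟩
    have h1 : p t ≤ 0 := by
      refine le_left_lim hta hpa fun z hz => ?_
      have hk := key z ⟨hz.1, (hz.2.trans htz).le⟩ (fun w hw => hFpos w ⟨hz.1.trans hw.1, hw.2⟩)
      have hs : Icc z t ⊆ Ioo a b := fun w hw => ⟨hz.1.trans_le hw.1, hw.2.trans_lt (htz.trans hz2.2)⟩
      have := anti_of (convex_Icc z t) (fun w hw => S.dp w (hs hw)) (fun w hw => by
        have h3 := S.hu w (hs (interior_subset hw))
        rw [interior_Icc] at hw
        have h4 := hk.1 w ⟨hw.1.le, hw.2.trans htz⟩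
        exact (div_neg_of_neg_of_pos (by linarith) (by positivity)).le)
      exact this ⟨le_rfl, hz.2.le⟩ ⟨hz.2.le, le_rfl⟩ hz.2.le
    linarith
  · have hMt : M t < M z2 := (key t ⟨hta, htz.le⟩ (fun z hz => hFpos z ⟨hta.trans hz.1, hz.2⟩)).1 t
      ⟨le_rfl, htz⟩
    have h1 : (0:ℝ) ≤ M t := by
      refine left_lim_le hta hMa fun z hz => ?_
      have hs : Icc z t ⊆ Ioo a b := fun w hw => ⟨hz.1.trans_le hw.1, hw.2.trans_lt (htz.trans hz2.2)⟩
      have := mono_of (convex_Icc z t) (fun w hw => S.dM w (hs hw)) (fun w hw => by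
        rw [interior_Icc] at hw
        exact (hFpos w ⟨hz.1.trans hw.1, (hw.2.trans htz).le⟩).le)
      exact this ⟨le_rfl, hz.2.le⟩ ⟨hz.2.le, le_rfl⟩ hz.2.le
    linarith

end
end Q78.TF
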