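import Pool.Agent.Q78.TF.Core2

set_option autoImplicit false

namespace Q78.TF

open Set Filter Topology

/-- classical positive solution on an open interval, with its derivatives -/
structure Sol (a b : ℝ) (g g1 g2 g3 : ℝ → ℝ) : Prop where
  hg : ∀ z ∈ Ioo a b, 0 < g z
  d0 : ∀ z ∈ Ioo a b, HasDerivAt g (g1 z) z
  d1 : ∀ z ∈ Ioo a b, HasDerivAt g1 (g2 z) z
  d2 : ∀ z ∈ Ioo a b, HasDerivAt g2 (g3 z) z
  dF : ∀ z ∈ Ioo a b, HasDerivAt (fun y => g y * g3 y) (2 * g z - √(g z) - 3 / 4 * z * g1 z) z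

section
variable {a b : ℝ} {g g1 g2 g3 : ℝ → ℝ}

theorem Sol.sys (S : Sol a b g g1 g2 g3) :
    Sys a b (fun z => √(g z)) (fun z => g1 z / (2 * √(g z)))
      (fun z => g z * g2 z - g1 z ^ 2 / 2) (fun z => g z * g3 z) where
  hu := fun z hz => Real.sqrt_pos.2 (S.hg z hz)
  du := fun z hz => (S.d0 z hz).sqrt (S.hg z hz).ne'
  dp := fun z hz => by
    have hgz := S.hg z hz
    have hu := Real.sqrt_pos.2 hgz
    have hsq : √(g z) ^ 2 = g z := Real.sq_sqrt hgz.le
    have h1 := (S.d1 z hz).div (((S.d0 z hz).sqrt hgz.ne').const_mul 2)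
      (by positivity : (2:ℝ) * √(g z) ≠ 0)
    refine h1.congr_deriv ?_
    have hne : √(g z) ≠ 0 := hu.ne'
    field_simp
    rw [hsq]
  dM := fun z hz => by
    have h1 := ((S.d0 z hz).mul (S.d2 z hz)).sub (((S.d1 z hz).pow 2).div_const 2)
    refine h1.congr_deriv ?_
    push_cast
    ring
  dF := fun z hz => by
    refine (S.dF z hz).congr_deriv ?_
    have hgz := S.hg z hz
    have hu := Real.sqrt_pos.2 hgz
    have hsq : √(g z) ^ 2 = g z := Real.sq_sqrt hgz.le
    have hne : √(g z) ≠ 0 := hu.ne'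
    have h1 : √(g z) * (g1 z / (2 * √(g z))) = g1 z / 2 := by field_simp
    have h2 : √(g z) * (2 * (√(g z) - 1 / 2) - 3 / 2 * z * (g1 z / (2 * √(g z)))) =
        2 * √(g z) ^ 2 - √(g z) - 3 / 2 * z * (√(g z) * (g1 z / (2 * √(g z)))) := by ring
    rw [h2, h1, hsq]
    ring

/-- the second derivative stays bounded below by a positive constant at the edge -/
theorem edge_lower (ha : 0 ≤ a) (hab : a < b) (S : Sol a b g g1 g2 g3)
    (t0 : Tendsto g (𝓝[<] b) (𝓝 0)) (t1 : Tendsto g1 (𝓝[<] b) (𝓝 0))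
    (tF : Tendsto (fun z => g z * g3 z) (𝓝[<] b) (𝓝 0)) :
    ∃ c ∈ Ioo a b, ∃ κ > 0, (∀ z ∈ Ico c b, κ ≤ g2 z) ∧
      (∀ z ∈ Ico c b, g z * g3 z + 3 / 4 * z * g z > 0) ∧ (∀ z ∈ Ico c b, √(g z) < 4 / 11) := by
  have hb : 0 < b := ha.trans_lt hab
  -- choose b1
  have tu : Tendsto (fun z => √(g z)) (𝓝[<] b) (𝓝 0) := by
    have h := (Real.continuous_sqrt.tendsto 0).comp t0
    rw [Real.sqrt_zero] at h
    exact h
  have ev : ∀ᶠ z in 𝓝[<] b, √(g z) < 1 / 8 := tu.eventually (gt_mem_nhds (by norm_num))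
  obtain ⟨b1, hb1, hb1u⟩ : ∃ b1 ∈ Ioo a b, ∀ z ∈ Ioo b1 b, √(g z) < 1 / 8 := by
    have h1 : ∀ᶠ z in 𝓝[<] b, z ∈ Ioo a b := Ioo_mem_nhdsLT hab
    obtain ⟨l, hl, hl2⟩ := (mem_nhdsLT_iff_exists_Ioo_subset).1 (ev.and h1)
    refine ⟨max l ((a + b) / 2), ⟨?_, ?_⟩, ?_⟩
    · exact lt_max_of_lt_right (by linarith)
    · exact max_lt hl (by linarith)
    · intro z hz
      exact (hl2 ⟨(le_max_left _ _).trans_lt hz.1, hz.2⟩).1
  have hsub : Ioo b1 b ⊆ Ioo a b := Ioo_subset_Ioo_left hb1.1.le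
  set K : ℝ → ℝ := fun z => g z * g3 z + 3 / 4 * z * g z with hK
  have dK : ∀ z ∈ Ioo b1 b, HasDerivAt K (11 / 4 * g z - √(g z)) z := by
    intro z hz
    have h1 := (S.dF z (hsub hz)).add (((hasDerivAt_id z).const_mul (3 / 4)).mul (S.d0 z (hsub hz)))
    refine h1.congr_deriv ?_
    simp only [id]
    ring
  have tz : Tendsto (fun z : ℝ => z) (𝓝[<] b) (𝓝 b) := tendsto_id.mono_left nhdsWithin_le_nhds
  have tK : Tendsto K (𝓝[<] b) (𝓝 0) := by
    have := tF.add ((tz.const_mul (3 / 4)).mul t0)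
    simpa using this
  have hsq : ∀ z ∈ Ioo b1 b, √(g z) ^ 2 = g z := fun z hz => Real.sq_sqrt (S.hg z (hsub hz)).le
  have hupos : ∀ z ∈ Ioo b1 b, 0 < √(g z) := fun z hz => Real.sqrt_pos.2 (S.hg z (hsub hz))
  have hKanti : StrictAntiOn K (Ioo b1 b) := by
    refine santi_of (convex_Ioo b1 b) dK fun z hz => ?_
    rw [interior_Ioo] at hz
    have h1 := hsq z hz
    have h2 := hupos z hz
    have h3 := hb1u z hz
    nlinarith
  have hKpos : ∀ z ∈ Ioo b1 b, 0 < K z := by
    intro z hz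
    set t := (z + b) / 2 with ht
    have htm : t ∈ Ioo z b := ⟨by rw [ht]; linarith [hz.2], by rw [ht]; linarith [hz.2]⟩
    have htI : t ∈ Ioo b1 b := ⟨hz.1.trans htm.1, htm.2⟩
    have h1 : K t < K z := hKanti hz htI htm.1
    have h2 : 0 ≤ K t := right_lim_le htm.2 tK fun w hw =>
      (hKanti htI ⟨htI.1.trans hw.1, hw.2⟩ hw.1).le
    linarith
  -- g2 + 3/8 z^2 is increasing
  set G : ℝ → ℝ := fun z => g2 z + 3 / 8 * z ^ 2 with hG
  have dG : ∀ z ∈ Ioo b1 b, HasDerivAt G (g3 z + 3 / 4 * z) z := by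
    intro z hz
    have h1 := (S.d2 z (hsub hz)).add (((hasDerivAt_id z).pow 2).const_mul (3 / 8))
    refine h1.congr_deriv ?_
    simp only [id]
    push_cast
    ring
  have hg3 : ∀ z ∈ Ioo b1 b, g3 z + 3 / 4 * z = K z / g z := by
    intro z hz
    have := S.hg z (hsub hz)
    simp only [hK]
    field_simp
  have hGmono : StrictMonoOn G (Ioo b1 b) := by
    refine smono_of (convex_Ioo b1 b) dG fun z hz => ?_
    rw [interior_Ioo] at hz
    rw [hg3 z hz]
    exact div_pos (hKpos z hz) (S.hg z (hsub hz))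
  by_cases hcase : ∃ z' ∈ Ioo b1 b, 3 / 8 * b ^ 2 < G z'
  · obtain ⟨z', hz', hGz'⟩ := hcase
    refine ⟨z', hsub hz', G z' - 3 / 8 * b ^ 2, by linarith, ?_, ?_, ?_⟩
    · intro z hz
      have h1 : G z' ≤ G z := hGmono.monotoneOn hz' ⟨hz'.1.trans_le hz.1, hz.2⟩ hz.1
      have h2 : G z = g2 z + 3 / 8 * z ^ 2 := rfl
      have hz0 : 0 ≤ z := ha.trans ((hsub hz').1.le.trans hz.1)
      have h3 : z ^ 2 ≤ b ^ 2 := by nlinarith [hz.2]
      linarith
    · intro z hz
      exact hKpos z ⟨hz'.1.trans_le hz.1, hz.2⟩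
    · intro z hz
      have := hb1u z ⟨hz'.1.trans_le hz.1, hz.2⟩
      linarith
  · exfalso
    push Not at hcase
    have hg2 : ∀ z ∈ Ioo b1 b, g2 z ≤ 3 / 8 * (b ^ 2 - z ^ 2) := by
      intro z hz
      have h2 : G z = g2 z + 3 / 8 * z ^ 2 := rfl
      have := hcase z hz
      linarith
    -- slope bound
    have hslope : ∀ z ∈ Ioo b1 b, g1 z < 0 → g1 z ^ 2 ≤ 2 * (3 / 8 * (b ^ 2 - z ^ 2)) * g z := by
      intro z hz hneg
      set δ := 3 / 8 * (b ^ 2 - z ^ 2) with hδ
      have hz0 : 0 < z := ha.trans_lt (hsub hz).1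
      have hδpos : 0 < δ := by
        have : z ^ 2 < b ^ 2 := by nlinarith [hz.2]
        rw [hδ]
        linarith
      have hIco : Ico z b ⊆ Ioo b1 b := fun w hw => ⟨hz.1.trans_le hw.1, hw.2⟩
      have hT1 : AntitoneOn (fun t => g1 t - δ * t) (Ico z b) := by
        refine anti_of (f' := fun t => g2 t - δ * 1) (convex_Ico z b) (fun w hw =>
          (S.d1 w (hsub (hIco hw))).sub ((hasDerivAt_id w).const_mul δ)) fun w hw => ?_
        have h1 := hg2 w (hIco (interior_subset hw))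
        have h2 := (interior_subset hw).1
        have : z ^ 2 ≤ w ^ 2 := by nlinarith
        rw [hδ]
        linarith
      have hzI : z ∈ Ico z b := ⟨le_rfl, hz.2⟩
      have hT1' : ∀ t ∈ Ico z b, g1 t ≤ g1 z + δ * (t - z) := by
        intro t ht
        have := hT1 hzI ht ht.1
        simp only at this
        linarith
      have hT0 : AntitoneOn (fun t => g t - (g1 z * t + δ / 2 * (t - z) ^ 2)) (Ico z b) := by
        refine anti_of (f' := fun t => g1 t - (g1 z * 1 + δ / 2 * (2 * (t - z)))) (convex_Ico z b)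
          (fun w hw => ?_) fun w hw => ?_
        · have h1 : HasDerivAt (fun t : ℝ => (t - z) ^ 2) (2 * (w - z)) w := by
            have := ((hasDerivAt_id w).sub_const z).pow 2
            refine this.congr_deriv ?_
            simp only [id]
            push_cast
            ring
          exact (S.d0 w (hsub (hIco hw))).sub (((hasDerivAt_id w).const_mul (g1 z)).add
            (h1.const_mul (δ / 2)))
        · have := hT1' w (interior_subset hw)
          linarith
      have hT0' : ∀ t ∈ Ico z b, 0 ≤ g z + g1 z * (t - z) + δ / 2 * (t - z) ^ 2 := by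
        intro t ht
        have h1 := hT0 hzI ht ht.1
        simp only at h1
        have h2 := S.hg t (hsub (hIco ht))
        have h3 : (z - z) ^ 2 = 0 := by ring
        rw [h3] at h1
        linarith
      -- tau0 = |g1 z| / δ ≤ b - z
      have hlim : 0 ≤ g1 z + δ * (b - z) := by
        have h1 : Tendsto (fun t => g1 z + δ * (t - z) - g1 t) (𝓝[<] b)
            (𝓝 (g1 z + δ * (b - z) - 0)) :=
          (tendsto_const_nhds.add ((tz.sub_const z).const_mul δ)).sub t1
        have h3 : (0:ℝ) ≤ g1 z + δ * (b - z) - 0 :=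
          le_right_lim hz.2 h1 fun t ht => by
            have := hT1' t ⟨ht.1.le, ht.2⟩
            linarith
        linarith
      have hquad : ∀ τ ∈ Icc 0 (b - z), 0 ≤ g z + g1 z * τ + δ / 2 * τ ^ 2 := by
        intro τ hτ
        rcases eq_or_lt_of_le hτ.2 with h | h
        · have h1 : Tendsto (fun t => g z + g1 z * (t - z) + δ / 2 * (t - z) ^ 2) (𝓝[<] b)
              (𝓝 (g z + g1 z * (b - z) + δ / 2 * (b - z) ^ 2)) :=
            (tendsto_const_nhds.add ((tz.sub_const z).const_mul _)).add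
              (((tz.sub_const z).pow 2).const_mul _)
          have h2 := ge_of_tendsto h1 (eventually_of_mem (Ioo_mem_nhdsLT hz.2) fun t ht =>
            hT0' t ⟨ht.1.le, ht.2⟩)
          rw [h]
          exact h2
        · have := hT0' (z + τ) ⟨by linarith [hτ.1], by linarith⟩
          have e : z + τ - z = τ := by ring
          rw [e] at this
          exact this
      have h5 := hquad (- g1 z / δ) ⟨div_nonneg (by linarith) hδpos.le, by
        rw [div_le_iff₀ hδpos]
        linarith⟩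
      have h6 : g z + g1 z * (-g1 z / δ) + δ / 2 * (-g1 z / δ) ^ 2 = g z - g1 z ^ 2 / (2 * δ) := by
        field_simp
        ring
      rw [h6] at h5
      have h7 : g1 z ^ 2 / (2 * δ) ≤ g z := by linarith
      rw [div_le_iff₀ (by positivity)] at h7
      linarith
    -- the flux derivative is negative near the edge
    have hgz_lt : ∃ b2 ∈ Ioo b1 b, ∀ z ∈ Ioo b2 b, 3 / 4 * b * √(2 * (3 / 8 * (b ^ 2 - z ^ 2))) < 1 / 2 := by
      have h1 : Tendsto (fun z : ℝ => 3 / 4 * b * √(2 * (3 / 8 * (b ^ 2 - z ^ 2)))) (𝓝[<] b) (𝓝 0) := by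
        have h2 : Continuous (fun z : ℝ => 3 / 4 * b * √(2 * (3 / 8 * (b ^ 2 - z ^ 2)))) := by
          fun_prop
        have h3 := h2.tendsto b
        have h4 : 3 / 4 * b * √(2 * (3 / 8 * (b ^ 2 - b ^ 2))) = 0 := by simp
        rw [h4] at h3
        exact h3.mono_left nhdsWithin_le_nhds
      have ev2 : ∀ᶠ z in 𝓝[<] b, 3 / 4 * b * √(2 * (3 / 8 * (b ^ 2 - z ^ 2))) < 1 / 2 :=
        h1.eventually (gt_mem_nhds (by norm_num))
      obtain ⟨l, hl, hl2⟩ := (mem_nhdsLT_iff_exists_Ioo_subset).1 ev2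
      refine ⟨max l ((b1 + b) / 2), ⟨?_, ?_⟩, ?_⟩
      · exact lt_max_of_lt_right (by linarith [hb1.2])
      · exact max_lt hl (by linarith [hb1.2])
      · intro z hz
        exact hl2 ⟨(le_max_left _ _).trans_lt hz.1, hz.2⟩
    obtain ⟨b2, hb2, hb2s⟩ := hgz_lt
    have hsub2 : Ioo b2 b ⊆ Ioo b1 b := Ioo_subset_Ioo_left hb2.1.le
    have hFanti : StrictAntiOn (fun y => g y * g3 y) (Ioo b2 b) := by
      refine santi_of (convex_Ioo b2 b) (fun z hz => S.dF z (hsub (hsub2 hz))) fun z hz => ?_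
      rw [interior_Ioo] at hz
      have hz1 := hsub2 hz
      have h1 := hsq z hz1
      have h2 := hupos z hz1
      have h3 := hb1u z hz1
      have hz0 : 0 < z := ha.trans_lt (hsub hz1).1
      have h4 : 2 * g z ≤ 1 / 4 * √(g z) := by nlinarith
      have h5 : - (3 / 4 * z * g1 z) ≤ 1 / 2 * √(g z) := by
        rcases le_or_gt 0 (g1 z) with h6 | h6
        · have : 0 ≤ 3 / 4 * z * g1 z := by positivity
          linarith
        · have h7 := hslope z hz1 h6
          have h8 : - g1 z ≤ √(2 * (3 / 8 * (b ^ 2 - z ^ 2))) * √(g z) := by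
            have hδ0 : 0 ≤ 2 * (3 / 8 * (b ^ 2 - z ^ 2)) := by
              have : z ^ 2 ≤ b ^ 2 := by nlinarith [hz.2]
              linarith
            rw [← Real.sqrt_mul hδ0]
            refine Real.le_sqrt_of_sq_le ?_
            rw [neg_sq]
            exact h7
          have h9 := hb2s z hz
          have h10 : 3 / 4 * z * (- g1 z) ≤ 3 / 4 * b * (√(2 * (3 / 8 * (b ^ 2 - z ^ 2))) * √(g z)) := by
            have : 0 ≤ - g1 z := by linarith
            have hzb := hz.2.le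
            gcongr
          have h11 : 3 / 4 * b * (√(2 * (3 / 8 * (b ^ 2 - z ^ 2))) * √(g z)) ≤ 1 / 2 * √(g z) := by
            have : 3 / 4 * b * (√(2 * (3 / 8 * (b ^ 2 - z ^ 2))) * √(g z)) =
              (3 / 4 * b * √(2 * (3 / 8 * (b ^ 2 - z ^ 2)))) * √(g z) := by ring
            rw [this]
            exact mul_le_mul_of_nonneg_right h9.le h2.le
          linarith
      linarith
    have hFpos : ∀ z ∈ Ioo b2 b, 0 < g z * g3 z := by
      intro z hz
      set t := (z + b) / 2 with ht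
      have htm : t ∈ Ioo z b := ⟨by rw [ht]; linarith [hz.2], by rw [ht]; linarith [hz.2]⟩
      have htI : t ∈ Ioo b2 b := ⟨hz.1.trans htm.1, htm.2⟩
      have h1 : g t * g3 t < g z * g3 z := hFanti hz htI htm.1
      have h2 : 0 ≤ g t * g3 t := right_lim_le htm.2 tF fun w hw =>
        (hFanti htI ⟨htI.1.trans hw.1, hw.2⟩ hw.1).le
      linarith
    have hg2mono : StrictMonoOn g2 (Ioo b2 b) := by
      refine smono_of (convex_Ioo b2 b) (fun z hz => S.d2 z (hsub (hsub2 hz))) fun z hz => ?_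
      rw [interior_Ioo] at hz
      exact pos_of_mul_pos_right (hFpos z hz) (S.hg z (hsub (hsub2 hz))).le
    have hg2le : ∀ z ∈ Ioo b2 b, g2 z ≤ 0 := by
      intro z hz
      have h1 : Tendsto (fun t : ℝ => 3 / 8 * (b ^ 2 - t ^ 2)) (𝓝[<] b) (𝓝 (3 / 8 * (b ^ 2 - b ^ 2))) :=
        (tendsto_const_nhds.sub (tz.pow 2)).const_mul _
      have h2 : g2 z ≤ 3 / 8 * (b ^ 2 - b ^ 2) := le_right_lim hz.2 h1 fun t ht =>
        (hg2mono hz ⟨hz.1.trans ht.1, ht.2⟩ ht.1).le.trans (hg2 t (hsub2 ⟨hz.1.trans ht.1, ht.2⟩))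
      linarith
    have hg2neg : ∀ z ∈ Ioo b2 b, g2 z < 0 := by
      intro z hz
      set t := (z + b) / 2 with ht
      have htm : t ∈ Ioo z b := ⟨by rw [ht]; linarith [hz.2], by rw [ht]; linarith [hz.2]⟩
      have htI : t ∈ Ioo b2 b := ⟨hz.1.trans htm.1, htm.2⟩
      exact (hg2mono hz htI htm.1).trans_le (hg2le t htI)
    have hg1anti : StrictAntiOn g1 (Ioo b2 b) := by
      refine santi_of (convex_Ioo b2 b) (fun z hz => S.d1 z (hsub (hsub2 hz))) fun z hz => ?_
      rw [interior_Ioo] at hz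
      exact hg2neg z hz
    have hg1nn : ∀ z ∈ Ioo b2 b, 0 ≤ g1 z := fun z hz =>
      right_lim_le hz.2 t1 fun t ht => (hg1anti hz ⟨hz.1.trans ht.1, ht.2⟩ ht.1).le
    have hgmono : MonotoneOn g (Ioo b2 b) := by
      refine mono_of (convex_Ioo b2 b) (fun z hz => S.d0 z (hsub (hsub2 hz))) fun z hz => ?_
      rw [interior_Ioo] at hz
      exact hg1nn z hz
    set t := (b2 + b) / 2 with ht
    have htI : t ∈ Ioo b2 b := ⟨by rw [ht]; linarith [hb2.2], by rw [ht]; linarith [hb2.2]⟩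
    have h1 : g t ≤ 0 := le_right_lim htI.2 t0 fun w hw =>
      hgmono htI ⟨htI.1.trans hw.1, hw.2⟩ hw.1.le
    linarith [S.hg t (hsub (hsub2 htI))]

/-- regularity at the edge -/
theorem edge (ha : 0 ≤ a) (hab : a < b) (S : Sol a b g g1 g2 g3)
    (t0 : Tendsto g (𝓝[<] b) (𝓝 0)) (t1 : Tendsto g1 (𝓝[<] b) (𝓝 0))
    (tF : Tendsto (fun z => g z * g3 z) (𝓝[<] b) (𝓝 0)) :
    Tendsto (fun z => g z * g2 z - g1 z ^ 2 / 2) (𝓝[<] b) (𝓝 0) ∧
    Tendsto (En (fun z => √(g z)) (fun z => √(g z) - 1 / 2) (fun z => g1 z / (2 * √(g z)))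
      (fun z => g z * g2 z - g1 z ^ 2 / 2) (fun z => g z * g3 z)) (𝓝[<] b) (𝓝 0) ∧
    ∃ c ∈ Ioo a b, ∀ z ∈ Ioo c b, g1 z / (2 * √(g z)) < 0 := by
  have hb : 0 < b := ha.trans_lt hab
  obtain ⟨c, hc, κ, hκ, hlow, hKpos, hu4⟩ := edge_lower ha hab S t0 t1 tF
  have hsub : Ico c b ⊆ Ioo a b := fun z hz => ⟨hc.1.trans_le hz.1, hz.2⟩
  have hcI : c ∈ Ico c b := ⟨le_rfl, hc.2⟩
  have tz : Tendsto (fun z : ℝ => z) (𝓝[<] b) (𝓝 b) := tendsto_id.mono_left nhdsWithin_le_nhds
  have hsq : ∀ z ∈ Ico c b, √(g z) ^ 2 = g z := fun z hz => Real.sq_sqrt (S.hg z (hsub hz)).le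
  have hupos : ∀ z ∈ Ico c b, 0 < √(g z) := fun z hz => Real.sqrt_pos.2 (S.hg z (hsub hz))
  have tu : Tendsto (fun z => √(g z)) (𝓝[<] b) (𝓝 0) := by
    have h := (Real.continuous_sqrt.tendsto 0).comp t0
    rw [Real.sqrt_zero] at h
    exact h
  have hint : ∀ z ∈ interior (Ico c b), z ∈ Ico c b := fun z hz => interior_subset hz
  have dpow : ∀ w : ℝ, HasDerivAt (fun t : ℝ => (b - t) ^ 2) (- (2 * (b - w))) w := by
    intro w
    have := ((hasDerivAt_id w).const_sub b).pow 2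
    refine this.congr_deriv ?_
    simp only [id]
    push_cast
    ring
  -- lower bounds
  have hg1up : ∀ z ∈ Ico c b, g1 z ≤ - (κ * (b - z)) := by
    intro z hz
    have hm : MonotoneOn (fun t => g1 t + κ * (b - t)) (Ico c b) := by
      refine mono_of (f' := fun t => g2 t + κ * (-1)) (convex_Ico c b) (fun w hw =>
        (S.d1 w (hsub hw)).add (((hasDerivAt_id w).const_sub b).const_mul κ)) fun w hw => ?_
      have := hlow w (hint w hw)
      linarith
    have h1 : Tendsto (fun t => g1 t + κ * (b - t)) (𝓝[<] b) (𝓝 (0 + κ * (b - b))) :=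
      t1.add ((tendsto_const_nhds.sub tz).const_mul κ)
    have h2 := le_right_lim hz.2 h1 fun t ht => hm hz ⟨hz.1.trans ht.1.le, ht.2⟩ ht.1.le
    simp only at h2
    linarith
  have hglow : ∀ z ∈ Ico c b, κ / 2 * (b - z) ^ 2 ≤ g z := by
    intro z hz
    have hm : AntitoneOn (fun t => g t - κ / 2 * (b - t) ^ 2) (Ico c b) := by
      refine anti_of (f' := fun t => g1 t - κ / 2 * (- (2 * (b - t)))) (convex_Ico c b)
        (fun w hw => (S.d0 w (hsub hw)).sub ((dpow w).const_mul _)) fun w hw => ?_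
      have := hg1up w (hint w hw)
      linarith
    have h1 : Tendsto (fun t => g t - κ / 2 * (b - t) ^ 2) (𝓝[<] b) (𝓝 (0 - κ / 2 * (b - b) ^ 2)) :=
      t0.sub (((tendsto_const_nhds.sub tz).pow 2).const_mul _)
    have h2 := right_lim_le hz.2 h1 fun t ht => hm hz ⟨hz.1.trans ht.1.le, ht.2⟩ ht.1.le
    simp only [sub_self] at h2
    have h3 : (0:ℝ) - κ / 2 * 0 ^ 2 = 0 := by ring
    rw [h3] at h2
    linarith
  set s := √(κ / 2) with hs
  have hspos : 0 < s := Real.sqrt_pos.2 (by positivity)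
  have hs2 : s ^ 2 = κ / 2 := Real.sq_sqrt (by positivity)
  have hulow : ∀ z ∈ Ico c b, s * (b - z) ≤ √(g z) := by
    intro z hz
    refine Real.le_sqrt_of_sq_le ?_
    rw [mul_pow, hs2]
    exact hglow z hz
  have hganti : AntitoneOn g (Ico c b) := by
    refine anti_of (convex_Ico c b) (fun w hw => S.d0 w (hsub hw)) fun w hw => ?_
    have h1 := hg1up w (hint w hw)
    have h2 := (hint w hw).2
    have : 0 < κ * (b - w) := by
      have : 0 < b - w := by linarith
      positivity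
    linarith
  -- K ≤ (b - z) u
  set K : ℝ → ℝ := fun z => g z * g3 z + 3 / 4 * z * g z with hK
  have dK : ∀ z ∈ Ico c b, HasDerivAt K (11 / 4 * g z - √(g z)) z := by
    intro z hz
    have h1 := (S.dF z (hsub hz)).add (((hasDerivAt_id z).const_mul (3 / 4)).mul (S.d0 z (hsub hz)))
    refine h1.congr_deriv ?_
    simp only [id]
    ring
  have tK : Tendsto K (𝓝[<] b) (𝓝 0) := by
    have := tF.add ((tz.const_mul (3 / 4)).mul t0)
    simpa using this
  have hKle : ∀ z ∈ Ico c b, K z ≤ (b - z) * √(g z) := by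
    intro z hz
    have hzb : Ico z b ⊆ Ico c b := Ico_subset_Ico_left hz.1
    have hm : MonotoneOn (fun t => K t + √(g z) * t) (Ico z b) := by
      refine mono_of (f' := fun t => (11 / 4 * g t - √(g t)) + √(g z) * 1) (convex_Ico z b)
        (fun w hw => (dK w (hzb hw)).add ((hasDerivAt_id w).const_mul _)) fun w hw => ?_
      have hw' := interior_subset hw
      have h1 : g w ≤ g z := hganti hz (hzb hw') hw'.1
      have h2 : √(g w) ≤ √(g z) := Real.sqrt_le_sqrt h1
      have h3 := S.hg w (hsub (hzb hw'))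
      linarith
    have h1 : Tendsto (fun t => K t + √(g z) * t) (𝓝[<] b) (𝓝 (0 + √(g z) * b)) :=
      tK.add (tz.const_mul _)
    have h2 := le_right_lim hz.2 h1 fun t ht => hm ⟨le_rfl, hz.2⟩ ⟨ht.1.le, ht.2⟩ ht.1.le
    simp only at h2
    linarith
  -- upper bound of g2
  have hg3 : ∀ z ∈ Ico c b, g3 z ≤ 1 / s := by
    intro z hz
    have h1 := hKle z hz
    have h2 := hulow z hz
    have h3 := hupos z hz
    have h4 := hsq z hz
    have hz0 : 0 < z := ha.trans_lt (hsub hz).1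
    have hgz := S.hg z (hsub hz)
    have h5 : g z * g3 z ≤ g z * (1 / s) := by
      have h6 : g z * g3 z = K z - 3 / 4 * z * g z := by simp only [hK]; ring
      have h7 : 0 < 3 / 4 * z * g z := by positivity
      have h8 : (b - z) * √(g z) ≤ g z * (1 / s) := by
        rw [mul_one_div, le_div_iff₀ hspos]
        calc (b - z) * √(g z) * s = (s * (b - z)) * √(g z) := by ring
          _ ≤ √(g z) * √(g z) := by gcongr
          _ = g z := by rw [← sq, h4]
      linarith
    exact le_of_mul_le_mul_left h5 hgz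
  obtain ⟨B, hB, hup⟩ : ∃ B : ℝ, 0 < B ∧ ∀ z ∈ Ico c b, g2 z ≤ B := by
    refine ⟨|g2 c| + 1 / s * (b - c) + 1, ?_, fun z hz => ?_⟩
    · have : 0 < b - c := by linarith [hc.2]
      positivity
    · have hm : AntitoneOn (fun t => g2 t - 1 / s * t) (Ico c b) := by
        refine anti_of (f' := fun t => g3 t - 1 / s * 1) (convex_Ico c b) (fun w hw =>
          (S.d2 w (hsub hw)).sub ((hasDerivAt_id w).const_mul _)) fun w hw => ?_
        have := hg3 w (hint w hw)
        linarith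
      have h1 := hm hcI hz hz.1
      simp only at h1
      have h2 := le_abs_self (g2 c)
      have h3 : 0 < 1 / s := by positivity
      have h4 : 1 / s * (z - c) ≤ 1 / s * (b - c) := by
        have := hz.2.le
        gcongr
      linarith
  have hg1low : ∀ z ∈ Ico c b, - (B * (b - z)) ≤ g1 z := by
    intro z hz
    have hm : AntitoneOn (fun t => g1 t + B * (b - t)) (Ico c b) := by
      refine anti_of (f' := fun t => g2 t + B * (-1)) (convex_Ico c b) (fun w hw =>
        (S.d1 w (hsub hw)).add (((hasDerivAt_id w).const_sub b).const_mul B)) fun w hw => ?_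
      have := hup w (hint w hw)
      linarith
    have h1 : Tendsto (fun t => g1 t + B * (b - t)) (𝓝[<] b) (𝓝 (0 + B * (b - b))) :=
      t1.add ((tendsto_const_nhds.sub tz).const_mul B)
    have h2 := right_lim_le hz.2 h1 fun t ht => hm hz ⟨hz.1.trans ht.1.le, ht.2⟩ ht.1.le
    simp only at h2
    linarith
  have hgup : ∀ z ∈ Ico c b, g z ≤ B / 2 * (b - z) ^ 2 := by
    intro z hz
    have hm : MonotoneOn (fun t => g t - B / 2 * (b - t) ^ 2) (Ico c b) := by
      refine mono_of (f' := fun t => g1 t - B / 2 * (- (2 * (b - t)))) (convex_Ico c b)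
        (fun w hw => (S.d0 w (hsub hw)).sub ((dpow w).const_mul _)) fun w hw => ?_
      have := hg1low w (hint w hw)
      linarith
    have h1 : Tendsto (fun t => g t - B / 2 * (b - t) ^ 2) (𝓝[<] b) (𝓝 (0 - B / 2 * (b - b) ^ 2)) :=
      t0.sub (((tendsto_const_nhds.sub tz).pow 2).const_mul _)
    have h2 := le_right_lim hz.2 h1 fun t ht => hm hz ⟨hz.1.trans ht.1.le, ht.2⟩ ht.1.le
    simp only [sub_self] at h2
    have h3 : (0:ℝ) - B / 2 * 0 ^ 2 = 0 := by ring
    rw [h3] at h2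
    linarith
  -- bound on the slope p and on M
  have hbz : ∀ z ∈ Ico c b, 0 < b - z := fun z hz => by linarith [hz.2]
  set P : ℝ := B / (2 * s) with hP
  have hP0 : 0 < P := by positivity
  have hpneg : ∀ z ∈ Ico c b, g1 z / (2 * √(g z)) < 0 := by
    intro z hz
    have h1 := hupos z hz
    have h2 := hg1up z hz
    have h3 := hbz z hz
    refine div_neg_of_neg_of_pos ?_ (by positivity)
    have : 0 < κ * (b - z) := by positivity
    linarith
  have hpabs : ∀ z ∈ Ico c b, |g1 z / (2 * √(g z))| ≤ P := by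
    intro z hz
    rw [abs_of_neg (hpneg z hz), hP, ← neg_div, div_le_div_iff₀ (by have := hupos z hz; positivity)
      (by positivity)]
    have h1 := hg1low z hz
    have h2 := hulow z hz
    have h3 := hbz z hz
    calc - g1 z * (2 * s) ≤ (B * (b - z)) * (2 * s) := by gcongr; linarith
      _ = B * (2 * (s * (b - z))) := by ring
      _ ≤ B * (2 * √(g z)) := by gcongr
  have hMabs : ∀ z ∈ Ico c b, |g z * g2 z - g1 z ^ 2 / 2| ≤ B ^ 2 * (b - z) ^ 2 := by
    intro z hz
    have h1 := hgup z hz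
    have h2 := hup z hz
    have h3 := hlow z hz
    have h4 := S.hg z (hsub hz)
    have h5 := hg1low z hz
    have h6 := hg1up z hz
    have h7 := hbz z hz
    have h8 : 0 ≤ g z * g2 z := mul_nonneg h4.le (by linarith)
    have h9 : g z * g2 z ≤ B / 2 * (b - z) ^ 2 * B := by
      apply mul_le_mul h1 h2 (by linarith) (by positivity)
    have h10 : g1 z ^ 2 ≤ (B * (b - z)) ^ 2 := by
      rw [sq_le_sq, abs_of_nonpos (by nlinarith [mul_pos hκ h7]), abs_of_nonneg (by positivity)]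
      linarith
    have h11 : 0 ≤ g1 z ^ 2 := sq_nonneg _
    have h12 : (B * (b - z)) ^ 2 = B ^ 2 * (b - z) ^ 2 := by ring
    have h13 : B / 2 * (b - z) ^ 2 * B = B ^ 2 * (b - z) ^ 2 / 2 := by ring
    have h14 : 0 ≤ B ^ 2 * (b - z) ^ 2 := by positivity
    rw [abs_le]
    constructor <;> linarith
  have hmem : ∀ᶠ z in 𝓝[<] b, z ∈ Ico c b := by
    filter_upwards [Ioo_mem_nhdsLT hc.2] with z hz using ⟨hz.1.le, hz.2⟩
  have tM : Tendsto (fun z => g z * g2 z - g1 z ^ 2 / 2) (𝓝[<] b) (𝓝 0) := by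
    have h1 : Tendsto (fun t => B ^ 2 * (b - t) ^ 2) (𝓝[<] b) (𝓝 (B ^ 2 * (b - b) ^ 2)) :=
      ((tendsto_const_nhds.sub tz).pow 2).const_mul _
    have h2 : B ^ 2 * (b - b) ^ 2 = 0 := by ring
    rw [h2] at h1
    exact squeeze_zero_norm' (hmem.mono fun z hz => by
      rw [Real.norm_eq_abs]
      exact hMabs z hz) h1
  refine ⟨tM, ?_, c, hc, fun z hz => hpneg z ⟨hz.1.le, hz.2⟩⟩
  -- the energy
  have e1 : Tendsto (fun z => g z * g3 z * (2 * (√(g z) - 1 / 2) - 3 / 2 * z * (g1 z / (2 * √(g z)))))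
      (𝓝[<] b) (𝓝 0) := by
    have h1 : Tendsto (fun z => |g z * g3 z| * (2 + 3 / 2 * b * P)) (𝓝[<] b)
        (𝓝 (|0| * (2 + 3 / 2 * b * P))) := (tF.abs).mul_const _
    rw [abs_zero, zero_mul] at h1
    refine squeeze_zero_norm' (hmem.mono fun z hz => ?_) h1
    rw [Real.norm_eq_abs, abs_mul]
    have h2 := hpabs z hz
    have h3 := hupos z hz
    have h4 := hu4 z hz
    have hz0 : 0 < z := ha.trans_lt (hsub hz).1
    have hzb := hz.2.le
    have h5 : |3 / 2 * z * (g1 z / (2 * √(g z)))| ≤ 3 / 2 * b * P := by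
      rw [abs_mul, abs_of_pos (by positivity : 0 < 3 / 2 * z)]
      gcongr
    have h6 : |2 * (√(g z) - 1 / 2)| ≤ 2 := by
      rw [abs_le]
      constructor <;> linarith
    have h7 : |2 * (√(g z) - 1 / 2) - 3 / 2 * z * (g1 z / (2 * √(g z)))| ≤ 2 + 3 / 2 * b * P :=
      (abs_sub _ _).trans (add_le_add h6 h5)
    gcongr
  have e2 : Tendsto (fun z => (g z * g2 z - g1 z ^ 2 / 2) * (g1 z / (2 * √(g z))) / 2)
      (𝓝[<] b) (𝓝 0) := by
    have h1 : Tendsto (fun z => |g z * g2 z - g1 z ^ 2 / 2| * P) (𝓝[<] b) (𝓝 (|0| * P)) :=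
      (tM.abs).mul_const _
    rw [abs_zero, zero_mul] at h1
    refine squeeze_zero_norm' (hmem.mono fun z hz => ?_) h1
    rw [Real.norm_eq_abs, abs_div, abs_mul, abs_two]
    have h2 := hpabs z hz
    have h3 : |g z * g2 z - g1 z ^ 2 / 2| * |g1 z / (2 * √(g z))| ≤
      |g z * g2 z - g1 z ^ 2 / 2| * P := by gcongr
    have h4 : 0 ≤ |g z * g2 z - g1 z ^ 2 / 2| * |g1 z / (2 * √(g z))| := by positivity
    linarith
  have e3 : Tendsto (fun z => 3 / 8 * z * (g z * g2 z - g1 z ^ 2 / 2) ^ 2 / √(g z) ^ 3)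
      (𝓝[<] b) (𝓝 0) := by
    have h1 : Tendsto (fun t => 3 / 8 * b * (B ^ 4 / s ^ 3) * (b - t)) (𝓝[<] b)
        (𝓝 (3 / 8 * b * (B ^ 4 / s ^ 3) * (b - b))) :=
      (tendsto_const_nhds.sub tz).const_mul _
    rw [sub_self, mul_zero] at h1
    refine squeeze_zero_norm' (hmem.mono fun z hz => ?_) h1
    have h2 := hMabs z hz
    have h3 := hulow z hz
    have h4 := hupos z hz
    have h5 := hbz z hz
    have hz0 : 0 < z := ha.trans_lt (hsub hz).1
    have hzb := hz.2.le
    have h6 : (g z * g2 z - g1 z ^ 2 / 2) ^ 2 ≤ (B ^ 2 * (b - z) ^ 2) ^ 2 := by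
      rw [← sq_abs]
      gcongr
    rw [Real.norm_eq_abs, abs_of_nonneg (by positivity)]
    calc 3 / 8 * z * (g z * g2 z - g1 z ^ 2 / 2) ^ 2 / √(g z) ^ 3
        ≤ 3 / 8 * b * (B ^ 2 * (b - z) ^ 2) ^ 2 / (s * (b - z)) ^ 3 := by gcongr
      _ = 3 / 8 * b * (B ^ 4 / s ^ 3) * (b - z) := by
          field_simp
  have e4 := (e1.sub e2).add e3
  have h0 : (0:ℝ) - 0 + 0 = 0 := by ring
  rw [h0] at e4
  exact e4

end
end Q78.TF
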