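import Pool.Agent.Q78.TF.Edge

set_option autoImplicit false

namespace Q78.TF

open Set Filter Topology

theorem main {z0 : ℝ} (hz0 : 0 < z0) {g : ℝ → ℝ} (hnn : ∀ z ∈ Icc 0 z0, 0 ≤ g z)
    (hcont : ContinuousOn g (Icc 0 z0)) (hC3 : ContDiffOn ℝ 3 g (Ico 0 z0))
    (hflux : ∀ z ∈ Ioo 0 z0, HasDerivAt (fun y => g y * iteratedDerivWithin 3 g (Ico 0 z0) y)
      (2 * g z - √(g z) - 3 / 4 * z * iteratedDerivWithin 1 g (Ico 0 z0) z) z)
    (l1 : iteratedDerivWithin 1 g (Ico 0 z0) 0 = 0)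
    (l3 : iteratedDerivWithin 3 g (Ico 0 z0) 0 = 0) (r0 : g z0 = 0)
    (r1 : Tendsto (iteratedDerivWithin 1 g (Ico 0 z0)) (𝓝[<] z0) (𝓝 0))
    (rF : Tendsto (fun z => g z * iteratedDerivWithin 3 g (Ico 0 z0) z) (𝓝[<] z0) (𝓝 0)) :
    ∀ z ∈ Icc 0 z0, g z = 0 := by
  set D : ℕ → ℝ → ℝ := fun j => iteratedDerivWithin j g (Ico 0 z0) with hD
  change ∀ z ∈ Ioo 0 z0, HasDerivAt (fun y => g y * D 3 y)
    (2 * g z - √(g z) - 3 / 4 * z * D 1 z) z at hflux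
  change D 1 0 = 0 at l1
  change D 3 0 = 0 at l3
  change Tendsto (D 1) (𝓝[<] z0) (𝓝 0) at r1
  change Tendsto (fun z => g z * D 3 z) (𝓝[<] z0) (𝓝 0) at rF
  have hs : UniqueDiffOn ℝ (Ico (0:ℝ) z0) := uniqueDiffOn_Ico 0 z0
  have hDd : ∀ j : ℕ, j < 3 → ∀ z ∈ Ioo 0 z0, HasDerivAt (D j) (D (j + 1) z) z := by
    intro j hj z hz
    have h1 := hC3.differentiableOn_iteratedDerivWithin (m := j) (by exact_mod_cast hj) hs z
      (Ioo_subset_Ico_self hz)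
    have h2 := h1.hasDerivWithinAt.hasDerivAt (Ico_mem_nhds hz.1 hz.2)
    have h3 : derivWithin (iteratedDerivWithin j g (Ico 0 z0)) (Ico 0 z0) z = D (j + 1) z := by
      simp only [hD]
      rw [iteratedDerivWithin_succ]
    rw [h3] at h2
    exact h2
  have hDc : ∀ j : ℕ, j ≤ 3 → ContinuousOn (D j) (Ico 0 z0) := fun j hj =>
    hC3.continuousOn_iteratedDerivWithin (by exact_mod_cast hj) hs
  have hD0 : D 0 = g := by
    simp only [hD]
    exact iteratedDerivWithin_zero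
  by_contra hcon
  push Not at hcon
  obtain ⟨y, hy, hgy⟩ := hcon
  have hgy' : 0 < g y := lt_of_le_of_ne (hnn y hy) (Ne.symm hgy)
  have hyz : y < z0 := by
    rcases eq_or_lt_of_le hy.2 with h | h
    · exfalso
      rw [h, r0] at hgy'
      exact lt_irrefl _ hgy'
    · exact h
  have tR : ∀ a ∈ Ico 0 z0, Tendsto g (𝓝[>] a) (𝓝 (g a)) := by
    intro a ha
    refine (hcont a ⟨ha.1, ha.2.le⟩).tendsto.mono_left (nhdsWithin_le_iff.2 ?_)
    exact mem_of_superset (Ioo_mem_nhdsGT ha.2) fun z hz => ⟨ha.1.trans hz.1.le, hz.2.le⟩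
  have tRD : ∀ j : ℕ, j ≤ 3 → ∀ a ∈ Ico 0 z0, Tendsto (D j) (𝓝[>] a) (𝓝 (D j a)) := by
    intro j hj a ha
    refine (hDc j hj a ha).tendsto.mono_left (nhdsWithin_le_iff.2 ?_)
    exact mem_of_superset (Ioo_mem_nhdsGT ha.2) fun z hz => ⟨ha.1.trans hz.1.le, hz.2⟩
  have tL : ∀ b ∈ Ioc 0 z0, Tendsto g (𝓝[<] b) (𝓝 (g b)) := by
    intro b hb
    refine (hcont b ⟨hb.1.le, hb.2⟩).tendsto.mono_left (nhdsWithin_le_iff.2 ?_)
    exact mem_of_superset (Ioo_mem_nhdsLT hb.1) fun z hz => ⟨hz.1.le, hz.2.le.trans hb.2⟩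
  -- an interior point of positivity
  obtain ⟨zp, hzp, hgzp⟩ : ∃ zp ∈ Ioo 0 z0, 0 < g zp := by
    rcases eq_or_lt_of_le hy.1 with h | h
    · have h1 := tR 0 ⟨le_rfl, hz0⟩
      rw [← h] at hgy'
      obtain ⟨z, h2, h3⟩ := ((h1.eventually (lt_mem_nhds hgy')).and (Ioo_mem_nhdsGT hz0)).exists
      exact ⟨z, h3, h2⟩
    · exact ⟨y, ⟨h, hyz⟩, hgy'⟩
  -- critical at interior zeros
  have hzero : ∀ z ∈ Ioo 0 z0, g z = 0 → D 1 z = 0 := by
    intro z hz hgz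
    have h1 : IsLocalMin g z := by
      filter_upwards [Ioo_mem_nhds hz.1 hz.2] with w hw
      rw [hgz]
      exact hnn w (Ioo_subset_Icc_self hw)
    have h2 := hDd 0 (by norm_num) z hz
    rw [hD0] at h2
    exact h1.hasDerivAt_eq_zero h2
  have hcpt : ∀ c d : ℝ, 0 ≤ c → d ≤ z0 → IsCompact {z ∈ Icc c d | g z ≤ 0} := by
    intro c d hc hd
    have h1 : {z ∈ Icc c d | g z ≤ 0} = Icc c d ∩ g ⁻¹' (Iic 0) := by
      ext z
      simp
    rw [h1]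
    exact isCompact_Icc.of_isClosed_subset ((hcont.mono (Icc_subset_Icc hc hd)).preimage_isClosed_of_isClosed
      isClosed_Icc isClosed_Iic) inter_subset_left
  -- right end
  obtain ⟨b, hbN, hbmin⟩ := (hcpt zp z0 hzp.1.le le_rfl).exists_isLeast ⟨z0, ⟨hzp.2.le, le_rfl⟩, r0.le⟩
  have hzpb : zp < b := by
    rcases eq_or_lt_of_le hbN.1.1 with h | h
    · exfalso
      rw [← h] at hbN
      exact absurd hgzp (not_lt.2 hbN.2)
    · exact h
  have hb0 : 0 < b := hzp.1.trans hzpb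
  have hgb : g b = 0 := le_antisymm hbN.2 (hnn b ⟨hb0.le, hbN.1.2⟩)
  have hposR : ∀ z ∈ Ico zp b, 0 < g z := by
    intro z hz
    by_contra h
    push Not at h
    exact absurd (hbmin ⟨⟨hz.1, hz.2.le.trans hbN.1.2⟩, h⟩) (not_le.2 hz.2)
  have t0 : Tendsto g (𝓝[<] b) (𝓝 0) := by
    have := tL b ⟨hb0, hbN.1.2⟩
    rwa [hgb] at this
  have t1F : Tendsto (D 1) (𝓝[<] b) (𝓝 0) ∧ Tendsto (fun z => g z * D 3 z) (𝓝[<] b) (𝓝 0) := by
    rcases eq_or_lt_of_le hbN.1.2 with h | h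
    · rw [h]
      exact ⟨r1, rF⟩
    · have h1 : ∀ j : ℕ, j ≤ 3 → Tendsto (D j) (𝓝[<] b) (𝓝 (D j b)) := by
        intro j hj
        refine (hDc j hj b ⟨hb0.le, h⟩).tendsto.mono_left (nhdsWithin_le_iff.2 ?_)
        exact mem_of_superset (Ioo_mem_nhdsLT hb0) fun z hz => ⟨hz.1.le, hz.2.trans h⟩
      constructor
      · have := h1 1 (by norm_num)
        rwa [hzero b ⟨hb0, h⟩ hgb] at this
      · have := t0.mul (h1 3 le_rfl)
        rwa [zero_mul] at this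
  -- left end
  obtain ⟨a, ha0, hazp, hposL, hleft⟩ : ∃ a : ℝ, 0 ≤ a ∧ a < zp ∧ (∀ z ∈ Ioc a zp, 0 < g z) ∧
      ((a = 0 ∧ 0 < g 0) ∨ g a = 0) := by
    by_cases hL : ∃ z ∈ Icc 0 zp, g z ≤ 0
    · obtain ⟨w, hw, hgw⟩ := hL
      obtain ⟨a, haN, hamax⟩ := (hcpt 0 zp le_rfl hzp.2.le).exists_isGreatest ⟨w, hw, hgw⟩
      have hazp : a < zp := by
        rcases eq_or_lt_of_le haN.1.2 with h | h
        · exfalso
          rw [h] at haN
          exact absurd hgzp (not_lt.2 haN.2)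
        · exact h
      refine ⟨a, haN.1.1, hazp, fun z hz => ?_, Or.inr (le_antisymm haN.2
        (hnn a ⟨haN.1.1, (hazp.trans hzp.2).le⟩))⟩
      by_contra h
      push Not at h
      exact absurd (hamax ⟨⟨haN.1.1.trans hz.1.le, hz.2⟩, h⟩) (not_le.2 hz.1)
    · push Not at hL
      exact ⟨0, le_rfl, hzp.1, fun z hz => hL z ⟨hz.1.le, hz.2⟩, Or.inl ⟨rfl, hL 0 ⟨le_rfl, hzp.1.le⟩⟩⟩
  have hab : a < b := hazp.trans hzpb
  have haI : a ∈ Ico 0 z0 := ⟨ha0, hazp.trans hzp.2⟩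
  have hsub : Ioo a b ⊆ Ioo 0 z0 := fun z hz => ⟨ha0.trans_lt hz.1, hz.2.trans_le hbN.1.2⟩
  have S : Sol a b g (D 1) (D 2) (D 3) := by
    refine ⟨fun z hz => ?_, fun z hz => ?_, fun z hz => hDd 1 (by norm_num) z (hsub hz),
      fun z hz => hDd 2 (by norm_num) z (hsub hz), fun z hz => hflux z (hsub hz)⟩
    · rcases le_or_gt z zp with h | h
      · exact hposL z ⟨hz.1, h⟩
      · exact hposR z ⟨h.le, hz.2⟩
    · have h2 := hDd 0 (by norm_num) z (hsub hz)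
      rw [hD0] at h2
      exact h2
  obtain ⟨tM, tE, hneg⟩ := edge ha0 hab S t0 t1F.1 t1F.2
  refine core ha0 hab S.sys tM tE hneg ?_
  have g0 := tR a haI
  have g1 := tRD 1 (by norm_num) a haI
  have g2 := tRD 2 (by norm_num) a haI
  have g3 := tRD 3 le_rfl a haI
  have gs : Tendsto (fun z => √(g z)) (𝓝[>] a) (𝓝 (√(g a))) :=
    (Real.continuous_sqrt.tendsto (g a)).comp g0
  rcases hleft with ⟨rfl, hg0⟩ | hga
  · left
    have hsq : 0 < √(g 0) := Real.sqrt_pos.2 hg0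
    have gp : Tendsto (fun z => D 1 z / (2 * √(g z))) (𝓝[>] 0) (𝓝 (D 1 0 / (2 * √(g 0)))) :=
      g1.div (gs.const_mul 2) (by positivity)
    have gM : Tendsto (fun z => g z * D 2 z - D 1 z ^ 2 / 2) (𝓝[>] 0)
        (𝓝 (g 0 * D 2 0 - D 1 0 ^ 2 / 2)) := (g0.mul g2).sub ((g1.pow 2).div_const 2)
    have gz : Tendsto (fun z : ℝ => z) (𝓝[>] 0) (𝓝 0) := tendsto_id.mono_left nhdsWithin_le_nhds
    have gE : Tendsto (En (fun z => √(g z)) (fun z => √(g z) - 1 / 2) (fun z => D 1 z / (2 * √(g z)))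
      (fun z => g z * D 2 z - D 1 z ^ 2 / 2) (fun z => g z * D 3 z)) (𝓝[>] 0)
      (𝓝 (g 0 * D 3 0 * (2 * (√(g 0) - 1 / 2) - 3 / 2 * 0 * (D 1 0 / (2 * √(g 0)))) -
        (g 0 * D 2 0 - D 1 0 ^ 2 / 2) * (D 1 0 / (2 * √(g 0))) / 2 +
        3 / 8 * 0 * (g 0 * D 2 0 - D 1 0 ^ 2 / 2) ^ 2 / √(g 0) ^ 3)) := by
      have h1 := (g0.mul g3).mul (((gs.sub_const (1 / 2)).const_mul 2).sub ((gz.const_mul (3 / 2)).mul gp))
      have h2 := (gM.mul gp).div_const 2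
      have h3 := ((gz.const_mul (3 / 8)).mul (gM.pow 2)).div (gs.pow 3) (by positivity)
      exact (h1.sub h2).add h3
    rw [l1] at gp gE
    rw [l3] at gE
    constructor
    · have : (0:ℝ) / (2 * √(g 0)) = 0 := zero_div _
      rw [this] at gp
      exact gp
    · have : (g 0 * 0 * (2 * (√(g 0) - 1 / 2) - 3 / 2 * 0 * (0 / (2 * √(g 0)))) -
        (g 0 * D 2 0 - 0 ^ 2 / 2) * (0 / (2 * √(g 0))) / 2 +
        3 / 8 * 0 * (g 0 * D 2 0 - 0 ^ 2 / 2) ^ 2 / √(g 0) ^ 3) = 0 := by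
        simp
      rw [this] at gE
      exact gE
  · right
    have hD1a : D 1 a = 0 := by
      rcases eq_or_lt_of_le ha0 with h | h
      · rw [← h]
        exact l1
      · exact hzero a ⟨h, haI.2⟩ hga
    constructor
    · rw [hga, Real.sqrt_zero] at gs
      exact gs
    · have gM : Tendsto (fun z => g z * D 2 z - D 1 z ^ 2 / 2) (𝓝[>] a)
        (𝓝 (g a * D 2 a - D 1 a ^ 2 / 2)) := (g0.mul g2).sub ((g1.pow 2).div_const 2)
      rw [hga, hD1a] at gM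
      have : (0:ℝ) * D 2 a - 0 ^ 2 / 2 = 0 := by ring
      rw [this] at gM
      exact gM

end Q78.TF
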