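import Mathlib

set_option autoImplicit false

namespace Q78.TF

open Set Filter Topology


section GO

variable {E : Type*} [NormedAddCommGroup E] [NormedSpace ℝ E]

theorem g3_go_local [CompleteSpace E] (F : ℝ → E → E) (L : NNReal) (hL : ∀ t, LipschitzWith L (F t))
    (hc : Continuous (Function.uncurry F)) : ∃ τ > (0:ℝ), ∀ (t0 : ℝ) (x : E), ∃ α : ℝ → E, α t0 = x ∧
      ∀ t ∈ Ioo (t0 - τ) (t0 + τ), HasDerivAt α (F t (α t)) t := by
  set τ : ℝ := 1 / (2 * ((L:ℝ) + 1)) with hτ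
  have hL0 : (0:ℝ) ≤ L := L.2
  have hτ0 : 0 < τ := by positivity
  have hLτ : 2 * (L:ℝ) * τ ≤ 1 := by
    rw [hτ, mul_one_div, div_le_one (by positivity)]
    linarith
  refine ⟨τ, hτ0, fun t0 x => ?_⟩
  have hcx : ∀ y : E, Continuous (fun t => F t y) := fun y =>
    hc.comp (Continuous.prodMk continuous_id continuous_const)
  obtain ⟨M, hM⟩ := isCompact_Icc.exists_bound_of_continuousOn
    ((hcx x).continuousOn (s := Icc (t0 - τ) (t0 + τ)))
  have ht0 : t0 ∈ Icc (t0 - τ) (t0 + τ) := ⟨by linarith, by linarith⟩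
  have hM0 : 0 ≤ M := (norm_nonneg _).trans (hM t0 ht0)
  let M' : NNReal := ⟨M, hM0⟩
  let τ' : NNReal := ⟨τ, hτ0.le⟩
  have hpl : IsPicardLindelof F (⟨t0, ht0⟩ : Icc (t0 - τ) (t0 + τ)) x (2 * M' * τ') 0
      (M' + L * (2 * M' * τ')) L := by
    constructor
    · exact fun t _ => (hL t).lipschitzOnWith
    · exact fun y _ => (hcx y).continuousOn
    · intro t ht y hy
      have h1 : ‖F t y - F t x‖ ≤ L * ‖y - x‖ := (hL t).norm_sub_le y x
      have h2 : ‖F t x‖ ≤ M := hM t ht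
      have h3 : ‖y - x‖ ≤ 2 * M * τ := by
        rw [← dist_eq_norm]
        exact hy
      have h4 : ‖F t y‖ ≤ ‖F t x‖ + ‖F t y - F t x‖ := by
        calc ‖F t y‖ = ‖F t x + (F t y - F t x)‖ := by rw [add_sub_cancel]
          _ ≤ _ := norm_add_le _ _
      show ‖F t y‖ ≤ M + L * (2 * M * τ)
      have h5 : (L:ℝ) * ‖y - x‖ ≤ L * (2 * M * τ) := mul_le_mul_of_nonneg_left h3 hL0
      linarith
    · have h1 : t0 + τ - t0 = τ := by ring
      have h2 : t0 - (t0 - τ) = τ := by ring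
      show (M + L * (2 * M * τ)) * max (t0 + τ - t0) (t0 - (t0 - τ)) ≤ 2 * M * τ - 0
      rw [h1, h2, max_self]
      have h3 : (2 * (L:ℝ) * τ) * (M * τ) ≤ 1 * (M * τ) :=
        mul_le_mul_of_nonneg_right hLτ (by positivity)
      nlinarith
  obtain ⟨α, h1, h2⟩ := hpl.exists_eq_forall_mem_Icc_hasDerivWithinAt₀
  exact ⟨α, h1, fun t ht => (h2 t (Ioo_subset_Icc_self ht)).hasDerivAt (Icc_mem_nhds ht.1 ht.2)⟩

theorem g3_go_glue (F : ℝ → E → E) (L : NNReal) (hL : ∀ t, LipschitzWith L (F t)) {a b c d p : ℝ}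
    (hac : a ≤ c) (hbd : b ≤ d) (hp : p ∈ Ioo c b) (f g : ℝ → E)
    (hf : ∀ t ∈ Ioo a b, HasDerivAt f (F t (f t)) t)
    (hg : ∀ t ∈ Ioo c d, HasDerivAt g (F t (g t)) t) (hfg : f p = g p) :
    ∃ h : ℝ → E, (∀ t ∈ Ioo a d, HasDerivAt h (F t (h t)) t) ∧ EqOn h f (Ioo a b) ∧
      EqOn h g (Ioo c d) := by
  have hu : EqOn f g (Ioo c b) := by
    refine ODE_solution_unique_of_mem_Ioo (v := F) (s := fun _ => univ) (K := L) (t₀ := p)
      (fun t _ => (hL t).lipschitzOnWith) hp (fun t ht => ⟨hf t ⟨lt_of_le_of_lt hac ht.1, ht.2⟩, trivial⟩)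
      (fun t ht => ⟨hg t ⟨ht.1, lt_of_lt_of_le ht.2 hbd⟩, trivial⟩) hfg
  have e1 : EqOn (fun t => if t < p then f t else g t) f (Ioo a b) := by
    intro t ht
    simp only
    by_cases h : t < p
    · rw [if_pos h]
    · rw [if_neg h]
      exact (hu ⟨lt_of_lt_of_le hp.1 (not_lt.mp h), ht.2⟩).symm
  have e2 : EqOn (fun t => if t < p then f t else g t) g (Ioo c d) := by
    intro t ht
    simp only
    by_cases h : t < p
    · rw [if_pos h]
      exact hu ⟨ht.1, lt_trans h hp.2⟩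
    · rw [if_neg h]
  refine ⟨fun t => if t < p then f t else g t, ?_, e1, e2⟩
  intro t ht
  rcases lt_or_ge t b with h | h
  · have ht' : t ∈ Ioo a b := ⟨ht.1, h⟩
    have h1 : (fun t => if t < p then f t else g t) =ᶠ[𝓝 t] f :=
      Filter.eventuallyEq_of_mem (Ioo_mem_nhds ht'.1 ht'.2) e1
    have h2 := e1 ht'
    rw [h2]
    exact (hf t ht').congr_of_eventuallyEq h1
  · have ht' : t ∈ Ioo c d := ⟨lt_of_lt_of_le (lt_trans hp.1 hp.2) h, ht.2⟩
    have h1 : (fun t => if t < p then f t else g t) =ᶠ[𝓝 t] g :=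
      Filter.eventuallyEq_of_mem (Ioo_mem_nhds ht'.1 ht'.2) e2
    have h2 := e2 ht'
    rw [h2]
    exact (hg t ht').congr_of_eventuallyEq h1

theorem g3_go_steps (F : ℝ → E → E) (L : NNReal) (hL : ∀ t, LipschitzWith L (F t)) {h0 : ℝ} (hh0 : 0 < h0)
    (hloc : ∀ (t0 : ℝ) (x : E), ∃ α : ℝ → E, α t0 = x ∧
      ∀ t ∈ Ioo (t0 - 2 * h0) (t0 + 2 * h0), HasDerivAt α (F t (α t)) t) (x0 : E) (n : ℕ) :
    ∃ ξ : ℝ → E, ξ 0 = x0 ∧
      ∀ t ∈ Ioo (-(2 * h0 + n * h0)) (2 * h0 + n * h0), HasDerivAt ξ (F t (ξ t)) t := by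
  induction n with
  | zero =>
    obtain ⟨α, h1, h2⟩ := hloc 0 x0
    refine ⟨α, h1, fun t ht => h2 t ⟨?_, ?_⟩⟩
    · have := ht.1
      push_cast at this
      linarith
    · have := ht.2
      push_cast at this
      linarith
  | succ n ih =>
    obtain ⟨ξ, hξ0, hξ⟩ := ih
    obtain ⟨T, hT⟩ : ∃ T, T = 2 * h0 + n * h0 := ⟨_, rfl⟩
    rw [← hT] at hξ
    have hn : (0:ℝ) ≤ n * h0 := by positivity
    have hT2 : 2 * h0 ≤ T := by linarith
    have hT' : 2 * h0 + ((n + 1 : ℕ) : ℝ) * h0 = T + h0 := by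
      push_cast
      linarith
    rw [hT']
    obtain ⟨α, hα1, hα2⟩ := hloc (T - h0) (ξ (T - h0))
    obtain ⟨ξ1, a1, a2, -⟩ := g3_go_glue F L hL (a := -T) (b := T) (c := T - 3 * h0) (d := T + h0)
      (p := T - h0) (by linarith) (by linarith) ⟨by linarith, by linarith⟩ ξ α hξ
      (fun t ht => hα2 t ⟨by linarith [ht.1], by linarith [ht.2]⟩) hα1.symm
    have hξ10 : ξ1 0 = x0 := by
      rw [a2 ⟨by linarith, by linarith⟩, hξ0]
    obtain ⟨β, hβ1, hβ2⟩ := hloc (-T + h0) (ξ1 (-T + h0))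
    obtain ⟨ξ2, b1, -, b3⟩ := g3_go_glue F L hL (a := -(T + h0)) (b := -T + 3 * h0) (c := -T) (d := T + h0)
      (p := -T + h0) (by linarith) (by linarith) ⟨by linarith, by linarith⟩ β ξ1
      (fun t ht => hβ2 t ⟨by linarith [ht.1], by linarith [ht.2]⟩) a1 hβ1
    refine ⟨ξ2, ?_, b1⟩
    rw [b3 ⟨by linarith, by linarith⟩, hξ10]

end GO

theorem global_ode {E : Type*} [NormedAddCommGroup E] [NormedSpace ℝ E] [CompleteSpace E]
    (F : ℝ → E → E) (L : NNReal) (hL : ∀ t, LipschitzWith L (F t))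
    (hc : Continuous (Function.uncurry F)) (x0 : E) :
    ∃ ξ : ℝ → E, ξ 0 = x0 ∧ ∀ t, HasDerivAt ξ (F t (ξ t)) t := by
  obtain ⟨τ, hτ, hloc⟩ := g3_go_local F L hL hc
  have hex : ∀ n : ℕ, ∃ γ : ℝ → E, γ 0 = x0 ∧
      ∀ t ∈ Ioo (-((n:ℝ) + 1)) ((n:ℝ) + 1), HasDerivAt γ (F t (γ t)) t := by
    intro n
    obtain ⟨m, hm⟩ := exists_nat_ge (((n:ℝ) + 1) / (τ / 2))
    rw [div_le_iff₀ (by positivity)] at hm
    obtain ⟨ξ, h1, h2⟩ := g3_go_steps F L hL (h0 := τ / 2) (by positivity) (by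
      intro t0 x
      obtain ⟨α, h3, h4⟩ := hloc t0 x
      exact ⟨α, h3, fun t ht => h4 t ⟨by linarith [ht.1], by linarith [ht.2]⟩⟩) x0 m
    exact ⟨ξ, h1, fun t ht => h2 t ⟨by linarith [ht.1], by linarith [ht.2]⟩⟩
  choose γ h0 h1 using hex
  have hun : ∀ n k : ℕ, n ≤ k → EqOn (γ n) (γ k) (Ioo (-((n:ℝ) + 1)) ((n:ℝ) + 1)) := by
    intro n k hnk
    have hnk' : (n:ℝ) ≤ k := by exact_mod_cast hnk
    have hn : (0:ℝ) ≤ n := n.cast_nonneg
    refine ODE_solution_unique_of_mem_Ioo (v := F) (s := fun _ => univ) (K := L) (t₀ := 0)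
      (fun t _ => (hL t).lipschitzOnWith) ⟨by linarith, by linarith⟩
      (fun t ht => ⟨h1 n t ht, trivial⟩) (fun t ht => ⟨h1 k t ⟨?_, ?_⟩, trivial⟩) ?_
    · linarith [ht.1]
    · linarith [ht.2]
    · rw [h0, h0]
  refine ⟨fun t => γ ⌈|t|⌉₊ t, ?_, ?_⟩
  · simp only
    rw [h0]
  · intro t
    set N : ℕ := ⌈|t|⌉₊ + 1 with hN
    have hval : ∀ s : ℝ, |s| < |t| + 1 → γ ⌈|s|⌉₊ s = γ N s := by
      intro s hs
      have h2 : ⌈|s|⌉₊ ≤ N := by
        have h3 : |s| ≤ ((⌈|t|⌉₊ + 1 : ℕ) : ℝ) := by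
          push_cast
          linarith [Nat.le_ceil |t|]
        exact Nat.ceil_le.2 h3
      refine hun _ _ h2 ?_
      have h3 := Nat.le_ceil |s|
      exact abs_lt.1 (by linarith : |s| < (⌈|s|⌉₊:ℝ) + 1)
    have h3 : HasDerivAt (γ N) (F t (γ N t)) t := by
      apply h1
      have h4 := Nat.le_ceil |t|
      refine abs_lt.1 ?_
      rw [hN]
      push_cast
      linarith
    have h4 : (fun s => γ ⌈|s|⌉₊ s) =ᶠ[𝓝 t] γ N := by
      have : ∀ᶠ s in 𝓝 t, |s| < |t| + 1 :=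
        (continuous_abs.tendsto t).eventually (gt_mem_nhds (by linarith))
      exact this.mono hval
    change HasDerivAt _ (F t (γ ⌈|t|⌉₊ t)) t
    rw [hval t (by linarith)]
    exact h3.congr_of_eventuallyEq h4

/-- existence of the comparison solution -/
theorem exists_chi {c d : ℝ} (hcd : c ≤ d) (u : ℝ → ℝ) (hu : ContinuousOn u (Icc c d))
    (hpos : ∀ z ∈ Icc c d, 0 < u z) :
    ∃ χ q m f : ℝ → ℝ, χ d = 1 ∧ q d = 0 ∧ m d = 0 ∧ f d = 0 ∧
      ∀ z ∈ Icc c d, HasDerivAt χ (q z) z ∧ HasDerivAt q (m z / (2 * u z ^ 3)) z ∧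
        HasDerivAt m (f z) z ∧ HasDerivAt f (u z * (2 * χ z - 3 / 2 * z * q z)) z := by
  set P : ℝ → ℝ := fun t => (projIcc c d hcd t : ℝ) with hP
  have hPc : Continuous P := continuous_subtype_val.comp continuous_projIcc
  have hPm : ∀ t, P t ∈ Icc c d := fun t => (projIcc c d hcd t).2
  have hPid : ∀ t ∈ Icc c d, P t = t := by
    intro t ht
    simp only [hP]
    rw [projIcc_of_mem hcd ht]
  have huP : Continuous (fun t => u (P t)) :=
    hu.comp_continuous hPc hPm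
  set A : ℝ → ℝ := fun t => 1 / (2 * u (P t) ^ 3) with hA
  set B : ℝ → ℝ := fun t => 2 * u (P t) with hB
  set C : ℝ → ℝ := fun t => - (3 / 2 * P t * u (P t)) with hC
  have hAc : Continuous A := by
    refine continuous_const.div (continuous_const.mul (huP.pow 3)) ?_
    intro t
    have := hpos (P t) (hPm t)
    positivity
  have hBc : Continuous B := continuous_const.mul huP
  have hCc : Continuous C := ((continuous_const.mul hPc).mul huP).neg
  -- boundedness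
  have hbd : ∀ G : ℝ → ℝ, Continuous G → (∀ t, G t = G (P t)) → ∃ K : ℝ, ∀ t, |G t| ≤ K := by
    intro G hG hGP
    obtain ⟨K, hK⟩ := isCompact_Icc.exists_bound_of_continuousOn (s := Icc c d) (f := G)
      hG.continuousOn
    refine ⟨K, fun t => ?_⟩
    rw [hGP t]
    exact hK _ (hPm t)
  have hPP : ∀ t, P (P t) = P t := fun t => hPid _ (hPm t)
  obtain ⟨KA, hKA⟩ := hbd A hAc (fun t => by simp only [hA, hPP])
  obtain ⟨KB, hKB⟩ := hbd B hBc (fun t => by simp only [hB, hPP])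
  obtain ⟨KC, hKC⟩ := hbd C hCc (fun t => by simp only [hC, hPP])
  have hKA0 : 0 ≤ KA := (abs_nonneg _).trans (hKA 0)
  have hKB0 : 0 ≤ KB := (abs_nonneg _).trans (hKB 0)
  have hKC0 : 0 ≤ KC := (abs_nonneg _).trans (hKC 0)
  clear_value A B C
  set L : NNReal := ⟨1 + KA + KB + KC, by positivity⟩ with hL
  have hLv : (L : ℝ) = 1 + KA + KB + KC := rfl
  let F : ℝ → ℝ × ℝ × ℝ × ℝ → ℝ × ℝ × ℝ × ℝ := fun t y =>
    (y.2.1, A (t + d) * y.2.2.1, y.2.2.2, B (t + d) * y.1 + C (t + d) * y.2.1)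
  have hFl : ∀ t, LipschitzWith L (F t) := by
    intro t
    refine LipschitzWith.of_dist_le_mul fun x y => ?_
    rw [dist_eq_norm, dist_eq_norm]
    have h1 : ‖(x - y).1‖ ≤ ‖x - y‖ := norm_fst_le _
    have h2' : ‖(x - y).2‖ ≤ ‖x - y‖ := norm_snd_le _
    have h2 : ‖(x - y).2.1‖ ≤ ‖x - y‖ := (norm_fst_le _).trans h2'
    have h3' : ‖(x - y).2.2‖ ≤ ‖x - y‖ := (norm_snd_le _).trans h2'
    have h3 : ‖(x - y).2.2.1‖ ≤ ‖x - y‖ := (norm_fst_le _).trans h3'
    have h4 : ‖(x - y).2.2.2‖ ≤ ‖x - y‖ := (norm_snd_le _).trans h3'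
    have e1 : ‖F t x - F t y‖ ≤ max ‖(x - y).2.1‖ (max ‖A (t + d) * (x - y).2.2.1‖
        (max ‖(x - y).2.2.2‖ ‖B (t + d) * (x - y).1 + C (t + d) * (x - y).2.1‖)) := by
      have e2 : F t x - F t y = ((x - y).2.1, A (t + d) * (x - y).2.2.1, (x - y).2.2.2,
          B (t + d) * (x - y).1 + C (t + d) * (x - y).2.1) := by
        simp only [F, Prod.fst_sub, Prod.snd_sub]
        refine Prod.ext rfl (Prod.ext ?_ (Prod.ext rfl ?_))
        · show A (t + d) * x.2.2.1 - A (t + d) * y.2.2.1 = A (t + d) * (x.2.2.1 - y.2.2.1)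
          ring
        · show (B (t + d) * x.1 + C (t + d) * x.2.1) - (B (t + d) * y.1 + C (t + d) * y.2.1) =
            B (t + d) * (x.1 - y.1) + C (t + d) * (x.2.1 - y.2.1)
          ring
      rw [e2]
      simp only [Prod.norm_def]
      exact le_rfl
    have hn : 0 ≤ ‖x - y‖ := norm_nonneg _
    have ha := hKA (t + d)
    have hb := hKB (t + d)
    have hc := hKC (t + d)
    refine e1.trans ?_
    rw [hLv]
    have g1 : ‖(x - y).2.1‖ ≤ (1 + KA + KB + KC) * ‖x - y‖ := by nlinarith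
    have g2 : ‖A (t + d) * (x - y).2.2.1‖ ≤ (1 + KA + KB + KC) * ‖x - y‖ := by
      rw [norm_mul, Real.norm_eq_abs]
      calc |A (t + d)| * ‖(x - y).2.2.1‖ ≤ KA * ‖x - y‖ := by gcongr
        _ ≤ _ := by nlinarith
    have g3 : ‖(x - y).2.2.2‖ ≤ (1 + KA + KB + KC) * ‖x - y‖ := by nlinarith
    have g4 : ‖B (t + d) * (x - y).1 + C (t + d) * (x - y).2.1‖ ≤
        (1 + KA + KB + KC) * ‖x - y‖ := by
      calc ‖B (t + d) * (x - y).1 + C (t + d) * (x - y).2.1‖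
          ≤ ‖B (t + d) * (x - y).1‖ + ‖C (t + d) * (x - y).2.1‖ := norm_add_le _ _
        _ = |B (t + d)| * ‖(x - y).1‖ + |C (t + d)| * ‖(x - y).2.1‖ := by
            rw [norm_mul, norm_mul, Real.norm_eq_abs (B (t + d)), Real.norm_eq_abs (C (t + d))]
        _ ≤ KB * ‖x - y‖ + KC * ‖x - y‖ := by gcongr
        _ ≤ _ := by nlinarith
    exact max_le g1 (max_le g2 (max_le g3 g4))
  have hFc : Continuous (Function.uncurry F) := by
    have hd : Continuous (fun z : ℝ × (ℝ × ℝ × ℝ × ℝ) => z.1 + d) :=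
      continuous_fst.add continuous_const
    have y1 : Continuous (fun z : ℝ × (ℝ × ℝ × ℝ × ℝ) => z.2.1) := continuous_fst.comp continuous_snd
    have y2 : Continuous (fun z : ℝ × (ℝ × ℝ × ℝ × ℝ) => z.2.2.1) :=
      continuous_fst.comp (continuous_snd.comp continuous_snd)
    have y3 : Continuous (fun z : ℝ × (ℝ × ℝ × ℝ × ℝ) => z.2.2.2.1) :=
      continuous_fst.comp (continuous_snd.comp (continuous_snd.comp continuous_snd))
    have y4 : Continuous (fun z : ℝ × (ℝ × ℝ × ℝ × ℝ) => z.2.2.2.2) :=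
      continuous_snd.comp (continuous_snd.comp (continuous_snd.comp continuous_snd))
    have : Function.uncurry F = fun z : ℝ × (ℝ × ℝ × ℝ × ℝ) =>
        (z.2.2.1, A (z.1 + d) * z.2.2.2.1, z.2.2.2.2, B (z.1 + d) * z.2.1 + C (z.1 + d) * z.2.2.1) := by
      funext z
      rfl
    rw [this]
    exact y2.prodMk (((hAc.comp hd).mul y3).prodMk (y4.prodMk
      (((hBc.comp hd).mul y1).add ((hCc.comp hd).mul y2))))
  obtain ⟨ξ, h0, hξ⟩ := global_ode F L hFl hFc ((1 : ℝ), (0 : ℝ), (0 : ℝ), (0 : ℝ))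
  have hξ' : ∀ z, HasDerivAt (fun t => ξ (t - d)) (F (z - d) (ξ (z - d))) z := by
    intro z
    have h1 := hξ (z - d)
    have h2 : HasDerivAt (fun t : ℝ => t - d) 1 z := (hasDerivAt_id z).sub_const d
    have h3 := HasDerivAt.scomp z h1 h2
    rw [one_smul] at h3
    exact h3
  refine ⟨fun t => (ξ (t - d)).1, fun t => (ξ (t - d)).2.1, fun t => (ξ (t - d)).2.2.1,
    fun t => (ξ (t - d)).2.2.2, ?_, ?_, ?_, ?_, ?_⟩
  · simp [h0]
  · simp [h0]
  · simp [h0]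
  · simp [h0]
  · intro z hz
    have h := hξ' z
    have c1 : HasDerivAt (fun t => (ξ (t - d)).1) ((ξ (z - d)).2.1) z := by
      have := (hasFDerivAt_fst (𝕜 := ℝ) (E := ℝ) (F := ℝ × ℝ × ℝ) (p := ξ (z - d))).comp_hasDerivAt z h
      simpa [F, Function.comp_def] using this
    have h' : HasDerivAt (fun t => (ξ (t - d)).2) (F (z - d) (ξ (z - d))).2 z := by
      have := (hasFDerivAt_snd (𝕜 := ℝ) (E := ℝ) (F := ℝ × ℝ × ℝ) (p := ξ (z - d))).comp_hasDerivAt z h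
      simpa [Function.comp_def] using this
    have c2 : HasDerivAt (fun t => (ξ (t - d)).2.1) (A (z - d + d) * (ξ (z - d)).2.2.1) z := by
      have := (hasFDerivAt_fst (𝕜 := ℝ) (E := ℝ) (F := ℝ × ℝ) (p := (ξ (z - d)).2)).comp_hasDerivAt z h'
      simpa [F, Function.comp_def] using this
    have h'' : HasDerivAt (fun t => (ξ (t - d)).2.2) (F (z - d) (ξ (z - d))).2.2 z := by
      have := (hasFDerivAt_snd (𝕜 := ℝ) (E := ℝ) (F := ℝ × ℝ) (p := (ξ (z - d)).2)).comp_hasDerivAt z h'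
      simpa [Function.comp_def] using this
    have c3 : HasDerivAt (fun t => (ξ (t - d)).2.2.1) ((ξ (z - d)).2.2.2) z := by
      have := (hasFDerivAt_fst (𝕜 := ℝ) (E := ℝ) (F := ℝ) (p := (ξ (z - d)).2.2)).comp_hasDerivAt z h''
      simpa [F, Function.comp_def] using this
    have c4 : HasDerivAt (fun t => (ξ (t - d)).2.2.2)
        (B (z - d + d) * (ξ (z - d)).1 + C (z - d + d) * (ξ (z - d)).2.1) z := by
      have := (hasFDerivAt_snd (𝕜 := ℝ) (E := ℝ) (F := ℝ) (p := (ξ (z - d)).2.2)).comp_hasDerivAt z h''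
      simpa [F, Function.comp_def] using this
    have hz1 : z - d + d = z := by ring
    rw [hz1] at c2 c4
    have hPz := hPid z hz
    refine ⟨c1, ?_, c3, ?_⟩
    · have : A z * (ξ (z - d)).2.2.1 = (ξ (z - d)).2.2.1 / (2 * u z ^ 3) := by
        simp only [hA, hPz]
        ring
      rw [this] at c2
      exact c2
    · have : B z * (ξ (z - d)).1 + C z * (ξ (z - d)).2.1 =
          u z * (2 * (ξ (z - d)).1 - 3 / 2 * z * (ξ (z - d)).2.1) := by
        simp only [hB, hC, hPz]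
        ring
      rw [this] at c4
      exact c4

end Q78.TF
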